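import Pool.Agent.Helper40.TI.Chain

/-!
Flow form of 2-chains, cones over integral circulations, and balancing a sign vector.
-/

namespace Pool.Agent.Helper40.TI

open Classical Finset

variable {V : Type*} [Fintype V]

/-- The boundary of the chain `X a x b = max (φ x a b) 0`, in terms of `φ`. -/
def bf (φ : V → V → V → ℤ) (u v : V) : ℤ := ∑ w, φ u w v - ∑ w, φ v w u + ∑ w, φ w v u

theorem bd_max (φ : V → V → V → ℤ) (hsk : ∀ x a b, φ x a b = - φ x b a) (u v : V) :
    bd (fun a x b => max (φ x a b) 0) u v = bf φ u v := by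
  unfold bd bf
  rw [← Finset.sum_sub_distrib, ← Finset.sum_sub_distrib, ← Finset.sum_add_distrib]
  apply Finset.sum_congr rfl; intro w _
  have h1 := hsk v u w
  have h2 := hsk u w v
  have h3 := hsk w v u
  simp only
  omega

theorem steps_of_flow {T T' : V → V → Prop} (hT : IsTour T) (hT' : IsTour T')
    (φ : V → V → V → ℤ) (hsk : ∀ x a b, φ x a b = - φ x b a)
    (hsupp : ∀ x a b, φ x a b ≠ 0 → x ≠ a ∧ x ≠ b)
    (hbd : ∀ u v, bf φ u v = dif T T' u v) :
    ∃ k : ℕ, (k : ℤ) ≤ ∑ x, ∑ a, ∑ b, max (φ x a b) 0 ∧ Steps k T T' := by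
  obtain ⟨k, hk, hst⟩ := steps_of_chain hT hT' (fun a x b => max (φ x a b) 0) (by
    intro a x b h
    have h0 : φ x a b ≠ 0 := by
      intro h0; apply h; simp [h0]
    obtain ⟨h1, h2⟩ := hsupp x a b h0
    refine ⟨h1.symm, h2, ?_⟩
    rintro rfl
    have := hsk x b b
    omega) (by
    intro u v
    rw [bd_max φ hsk]
    exact hbd u v)
  refine ⟨k, hk.trans ?_, hst⟩
  rw [Finset.sum_comm]
  apply Finset.sum_le_sum; intro x _
  apply Finset.sum_le_sum; intro a _
  apply Finset.sum_le_sum; intro b _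
  rw [abs_of_nonneg (le_max_right _ _)]

theorem bf_add (φ ψ : V → V → V → ℤ) (u v : V) :
    bf (fun x a b => φ x a b + ψ x a b) u v = bf φ u v + bf ψ u v := by
  unfold bf
  simp only [Finset.sum_add_distrib]
  ring

theorem bf_skew (φ : V → V → V → ℤ) (hsk : ∀ x a b, φ x a b = - φ x b a) (u v : V) :
    bf φ u v = - bf φ v u := by
  unfold bf
  have : ∑ w, φ w v u = - ∑ w, φ w u v := by
    rw [← Finset.sum_neg_distrib]
    apply Finset.sum_congr rfl; intro w _; exact hsk w v u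
  rw [this]; ring

theorem sum_skew (E : V → V → ℤ) (h : ∀ a b, E a b = - E b a) : ∑ a, ∑ b, E a b = 0 := by
  have h1 : ∑ a, ∑ b, E a b = - ∑ a, ∑ b, E a b := by
    conv_rhs => rw [Finset.sum_comm]
    rw [← Finset.sum_neg_distrib]
    apply Finset.sum_congr rfl; intro a _
    rw [← Finset.sum_neg_distrib]
    apply Finset.sum_congr rfl; intro b _
    exact h a b
  omega

theorem bf_sum (φ : V → V → V → ℤ) (hsk : ∀ x a b, φ x a b = - φ x b a) (v : V) :
    ∑ u, bf φ u v = 0 := by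
  unfold bf
  rw [Finset.sum_add_distrib, Finset.sum_sub_distrib]
  have h1 : ∑ u, ∑ w, φ v w u = 0 := by
    rw [Finset.sum_comm]
    exact sum_skew (φ v) (hsk v)
  have h2 : ∑ u, ∑ w, φ w v u = - ∑ u, ∑ w, φ u w v := by
    rw [Finset.sum_comm, ← Finset.sum_neg_distrib]
    apply Finset.sum_congr rfl; intro a _
    rw [← Finset.sum_neg_distrib]
    apply Finset.sum_congr rfl; intro b _
    exact hsk a v b
  rw [h1, h2]; ring

/-- Every integral circulation bounds a chain with at most half as many triangles as arcs. -/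
theorem cone [Nonempty V] (E : V → V → ℤ) (hE : ∀ a b, E a b = - E b a)
    (h0 : ∀ b, ∑ a, E a b = 0) :
    ∃ φ : V → V → V → ℤ, (∀ x a b, φ x a b = - φ x b a) ∧
      (∀ x a b, φ x a b ≠ 0 → x ≠ a ∧ x ≠ b) ∧ (∀ u v, bf φ u v = E u v) ∧
      2 * ∑ x, ∑ a, ∑ b, max (φ x a b) 0 ≤ ∑ a, ∑ b, |E a b| := by
  obtain ⟨v0⟩ := (inferInstance : Nonempty V)
  refine ⟨fun x a b => if x = v0 ∧ a ≠ v0 ∧ b ≠ v0 then E b a else 0, ?_, ?_, ?_, ?_⟩
  · intro x a b
    beta_reduce
    by_cases h : x = v0 ∧ a ≠ v0 ∧ b ≠ v0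
    · rw [if_pos h, if_pos ⟨h.1, h.2.2, h.2.1⟩]; exact hE b a
    · rw [if_neg h, if_neg (fun h' => h ⟨h'.1, h'.2.2, h'.2.1⟩)]; rfl
  · intro x a b h
    beta_reduce at h
    by_cases h' : x = v0 ∧ a ≠ v0 ∧ b ≠ v0
    · rw [h'.1]; exact ⟨h'.2.1.symm, h'.2.2.symm⟩
    · rw [if_neg h'] at h; exact absurd rfl h
  · intro u v
    unfold bf
    -- τ x b = [x = v0] E v0 b
    have hcol : ∀ b, b ≠ v0 → ∑ w, (if w ≠ v0 then E b w else 0) = E v0 b := by
      intro b hb
      have h1 := h0 b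
      have h2 : ∑ w, E b w = 0 := by
        have : ∑ w, E b w = - ∑ w, E w b := by
          rw [← Finset.sum_neg_distrib]
          apply Finset.sum_congr rfl; intro w _; exact hE b w
        rw [this, h1]; rfl
      have h3 : ∑ w, (if w ≠ v0 then E b w else 0) = ∑ w, E b w - E b v0 := by
        have e1 : E b v0 = ∑ w, (if w = v0 then E b w else 0) := by simp
        rw [e1, ← Finset.sum_sub_distrib]
        apply Finset.sum_congr rfl; intro w _
        by_cases hw : w = v0 <;> simp [hw]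
      rw [h3, h2, hE v0 b]; ring
    have hdiag : ∀ a, E a a = 0 := by intro a; have := hE a a; omega
    have htau : ∀ x b, ∑ w, (if x = v0 ∧ w ≠ v0 ∧ b ≠ v0 then E b w else 0) =
        if x = v0 then E v0 b else 0 := by
      intro x b
      by_cases hx : x = v0
      · by_cases hb : b = v0
        · simp [hx, hb, hdiag]
        · simp only [hx, hb, ne_eq, not_false_eq_true, and_true, true_and, if_true]
          exact hcol b hb
      · simp [hx]
    rw [htau u v, htau v u]
    have hphi : ∑ w, (if w = v0 ∧ v ≠ v0 ∧ u ≠ v0 then E u v else 0) =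
        if v ≠ v0 ∧ u ≠ v0 then E u v else 0 := by
      rw [Finset.sum_eq_single v0]
      · simp
      · intro b _ hb; simp [hb]
      · simp
    rw [hphi]
    by_cases hu : u = v0
    · by_cases hv : v = v0
      · subst hu; subst hv; simp [hdiag]
      · subst hu; simp [hv]
    · by_cases hv : v = v0
      · subst hv; simp [hu]; exact (hE u v).symm
      · simp [hu, hv]
  · have h1 : ∑ x, ∑ a, ∑ b, max (if x = v0 ∧ a ≠ v0 ∧ b ≠ v0 then E b a else 0) 0 ≤
        ∑ a, ∑ b, max (E b a) 0 := by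
      rw [Finset.sum_eq_single v0]
      · apply Finset.sum_le_sum; intro a _
        apply Finset.sum_le_sum; intro b _
        split_ifs with h
        · exact le_rfl
        · simp
      · intro x _ hx
        apply Finset.sum_eq_zero; intro a _
        apply Finset.sum_eq_zero; intro b _
        simp [hx]
      · simp
    have h2 : ∑ a, ∑ b, |E a b| = ∑ a, ∑ b, max (E a b) 0 + ∑ a, ∑ b, max (E b a) 0 := by
      rw [← Finset.sum_add_distrib]
      apply Finset.sum_congr rfl; intro a _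
      rw [← Finset.sum_add_distrib]
      apply Finset.sum_congr rfl; intro b _
      have := hE a b
      rcases abs_cases (E a b) with ⟨c1, c2⟩ | ⟨c1, c2⟩ <;> rw [c1] <;> omega
    have h3 : ∑ a, ∑ b, max (E a b) 0 = ∑ a, ∑ b, max (E b a) 0 := Finset.sum_comm
    rw [h2, h3]
    linarith

theorem balance_aux (Y : Finset V) (s : V → ℤ) (h1 : ∀ v, s v = -1 ∨ s v = 0 ∨ s v = 1)
    (hpos : 0 ≤ ∑ y ∈ Y, s y) :
    ∃ σ : V → ℤ, (∀ v, σ v = -1 ∨ σ v = 0 ∨ σ v = 1) ∧ (∀ v, v ∉ Y → σ v = 0) ∧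
      ∑ v, σ v = 0 ∧ ∑ y ∈ Y, |s y - σ y| = |∑ y ∈ Y, s y| := by
  set P := Y.filter (fun y => s y = 1) with hP
  set M := Y.filter (fun y => s y = -1) with hM
  have hsum : ∑ y ∈ Y, s y = (P.card : ℤ) - M.card := by
    have : ∀ y ∈ Y, s y = (if s y = 1 then 1 else 0) - (if s y = -1 then 1 else 0) := by
      intro y _
      rcases h1 y with h | h | h <;> simp [h]
    rw [Finset.sum_congr rfl this, Finset.sum_sub_distrib, Finset.sum_ite, Finset.sum_ite]
    simp [hP, hM]
  have hle : M.card ≤ P.card := by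
    rw [hsum] at hpos; omega
  obtain ⟨P', hP', hcard⟩ := Finset.exists_subset_card_eq hle
  have memP : ∀ y, y ∈ P ↔ y ∈ Y ∧ s y = 1 := by intro y; simp [hP]
  have memM : ∀ y, y ∈ M ↔ y ∈ Y ∧ s y = -1 := by intro y; simp [hM]
  have hPP : ∀ y ∈ P', y ∈ Y ∧ s y = 1 := fun y hy => (memP y).1 (hP' hy)
  have hsub1 : P' ⊆ Y := fun y hy => (hPP y hy).1
  have hsub2 : M ⊆ Y := fun y hy => ((memM y).1 hy).1
  have hsub3 : P ⊆ Y := fun y hy => ((memP y).1 hy).1
  refine ⟨fun v => (if v ∈ P' then 1 else 0) - (if v ∈ M then 1 else 0), ?_, ?_, ?_, ?_⟩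
  · intro v
    beta_reduce
    by_cases a1 : v ∈ P' <;> by_cases a2 : v ∈ M
    · simp [a1, a2]
    · simp [a1, a2]
    · simp [a1, a2]
    · simp [a1, a2]
  · intro v hv
    have a1 : v ∉ P' := fun h => hv (hsub1 h)
    have a2 : v ∉ M := fun h => hv (hsub2 h)
    simp [a1, a2]
  · rw [Finset.sum_sub_distrib]
    simp [hcard]
  · rw [abs_of_nonneg hpos, hsum]
    have : ∀ y ∈ Y, |s y - ((if y ∈ P' then 1 else 0) - (if y ∈ M then 1 else 0))| =
        (if y ∈ P then 1 else 0) - (if y ∈ P' then 1 else 0) := by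
      intro y hy
      have mP := memP y
      have mM := memM y
      by_cases a1 : y ∈ P'
      · have b1 := hPP y a1
        have b2 : y ∈ P := hP' a1
        have b3 : y ∉ M := by rw [mM]; rintro ⟨_, h⟩; omega
        simp [a1, b2, b3, b1.2]
      · rcases h1 y with h | h | h
        · have b3 : y ∈ M := mM.2 ⟨hy, h⟩
          have b2 : y ∉ P := by rw [mP]; rintro ⟨_, h'⟩; omega
          simp [a1, b2, b3, h]
        · have b3 : y ∉ M := by rw [mM]; rintro ⟨_, h'⟩; omega
          have b2 : y ∉ P := by rw [mP]; rintro ⟨_, h'⟩; omega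
          simp [a1, b2, b3, h]
        · have b3 : y ∉ M := by rw [mM]; rintro ⟨_, h'⟩; omega
          have b2 : y ∈ P := mP.2 ⟨hy, h⟩
          simp [a1, b2, b3, h]
    rw [Finset.sum_congr rfl this, Finset.sum_sub_distrib, ← Finset.sum_filter,
      ← Finset.sum_filter]
    have e1 : Y.filter (fun y => y ∈ P) = P := by
      ext y; simp only [Finset.mem_filter]; exact ⟨fun h => h.2, fun h => ⟨hsub3 h, h⟩⟩
    have e2 : Y.filter (fun y => y ∈ P') = P' := by
      ext y; simp only [Finset.mem_filter]; exact ⟨fun h => h.2, fun h => ⟨hsub1 h, h⟩⟩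
    rw [e1, e2]
    simp [hcard]

/-- A sign vector can be made balanced on `Y` by erasing as few entries as possible. -/
theorem balance (Y : Finset V) (s : V → ℤ) (h1 : ∀ v, s v = -1 ∨ s v = 0 ∨ s v = 1) :
    ∃ σ : V → ℤ, (∀ v, σ v = -1 ∨ σ v = 0 ∨ σ v = 1) ∧ (∀ v, v ∉ Y → σ v = 0) ∧
      ∑ v, σ v = 0 ∧ ∑ y ∈ Y, |s y - σ y| = |∑ y ∈ Y, s y| := by
  by_cases hpos : 0 ≤ ∑ y ∈ Y, s y
  · exact balance_aux Y s h1 hpos
  · have h1' : ∀ v, (fun v => - s v) v = -1 ∨ (fun v => - s v) v = 0 ∨ (fun v => - s v) v = 1 := by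
      intro v
      rcases h1 v with h | h | h <;> simp [h]
    obtain ⟨σ, a1, a2, a3, a4⟩ := balance_aux Y (fun v => - s v) h1' (by
      rw [Finset.sum_neg_distrib]; omega)
    refine ⟨fun v => - σ v, ?_, ?_, ?_, ?_⟩
    · intro v
      rcases a1 v with h | h | h <;> simp [h]
    · intro v hv; simp [a2 v hv]
    · rw [Finset.sum_neg_distrib, a3]; rfl
    · rw [Finset.sum_neg_distrib, abs_neg] at a4
      rw [← a4]
      apply Finset.sum_congr rfl; intro y _
      rw [← abs_neg]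
      congr 1
      ring

end Pool.Agent.Helper40.TI
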