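import Pool.Agent.Helper40.TI.Chain

/-!
Fractional fillings of Eulerian oriented graphs by directed triangles: the curl inequality.
-/

namespace Pool.Agent.Helper40.TI

open Classical Finset

variable {V : Type*} [Fintype V]

def curl (s : V → V → ℤ) (a b c : V) : ℤ := s a b + s b c + s c a

/-- `a` has an arc to `b` but none to `c`. -/
noncomputable def gg (s : V → V → ℤ) (a b c : V) : ℤ :=
  if s a b = 1 ∧ s a c ≠ 1 then 1 else 0

theorem curl_le (s : V → V → ℤ) (h1 : ∀ u v, s u v = -1 ∨ s u v = 0 ∨ s u v = 1)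
    (hsk : ∀ u v, s u v = - s v u) (a b c : V) :
    max (curl s a b c) 0 ≤ gg s a b c + gg s b c a + gg s c a b := by
  unfold curl gg
  have e1 : s a c = - s c a := hsk a c
  have e2 : s b a = - s a b := hsk b a
  have e3 : s c b = - s b c := hsk c b
  rcases h1 a b with x | x | x <;> rcases h1 b c with y | y | y <;>
    rcases h1 c a with z | z | z <;> rw [e1, e2, e3, x, y, z] <;> simp

theorem sum_gg (s : V → V → ℤ) (h0 : ∀ v, s v v = 0) (v : V) :
    ∑ u, ∑ w, (if v ≠ u ∧ u ≠ w ∧ w ≠ v then gg s v u w else 0) =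
      ((univ.filter (fun u => s v u = 1)).card : ℤ) *
        ((Fintype.card V : ℤ) - 1 - (univ.filter (fun u => s v u = 1)).card) := by
  have h1 : ∀ u w, (if v ≠ u ∧ u ≠ w ∧ w ≠ v then gg s v u w else 0) =
      (if s v u = 1 then 1 else 0) * ((1 - (if s v w = 1 then 1 else 0)) -
        (if w = v then 1 else 0)) := by
    intro u w
    unfold gg
    by_cases hwv : w = v
    · subst hwv
      simp [h0]
    · by_cases hu : s v u = 1
      · have hvu : v ≠ u := by
          rintro rfl
          rw [h0] at hu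
          exact absurd hu (by norm_num)
        by_cases hw : s v w = 1
        · simp [hu, hw, hwv]
        · have huw : u ≠ w := by
            rintro rfl
            exact hw hu
          simp [hu, hw, hwv, hvu, huw]
      · simp [hu]
  have h2 : ∀ u, ∑ w, (if v ≠ u ∧ u ≠ w ∧ w ≠ v then gg s v u w else 0) =
      (if s v u = 1 then 1 else 0) *
        ((Fintype.card V : ℤ) - 1 - (univ.filter (fun u => s v u = 1)).card) := by
    intro u
    rw [Finset.sum_congr rfl (fun w _ => h1 u w), ← Finset.mul_sum]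
    congr 1
    rw [Finset.sum_sub_distrib, Finset.sum_sub_distrib]
    simp
    ring
  rw [Finset.sum_congr rfl (fun u _ => h2 u), ← Finset.sum_mul]
  congr 1
  simp

theorem deg_bound (d m : ℕ) (h : d ≤ m) : (d : ℤ) * ((m : ℤ) - d) ≤ ((m ^ 2 / 4 : ℕ) : ℤ) := by
  obtain ⟨e, rfl⟩ := Nat.exists_eq_add_of_le h
  have h1 : d * e ≤ (d + e) ^ 2 / 4 := by
    rw [Nat.le_div_iff_mul_le (by norm_num)]
    have : 0 ≤ ((d : ℤ) - e) ^ 2 := sq_nonneg _
    have h2 : ((d * e * 4 : ℕ) : ℤ) ≤ (((d + e) ^ 2 : ℕ) : ℤ) := by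
      push_cast
      nlinarith
    exact_mod_cast h2
  have h3 : (((d + e : ℕ) : ℤ) - d) = e := by push_cast; ring
  rw [h3]
  exact_mod_cast h1

/-- The positive part of the curl on triples of distinct vertices. -/
noncomputable def cpos (s : V → V → ℤ) (a b c : V) : ℤ :=
  if a ≠ b ∧ b ≠ c ∧ c ≠ a then max (curl s a b c) 0 else 0

theorem sum_curl_le [Nonempty V] (s : V → V → ℤ)
    (h1 : ∀ u v, s u v = -1 ∨ s u v = 0 ∨ s u v = 1) (hsk : ∀ u v, s u v = - s v u) :
    ∑ a, ∑ b, ∑ c, cpos s a b c ≤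
      3 * ((Fintype.card V : ℤ) * (((Fintype.card V - 1) ^ 2 / 4 : ℕ) : ℤ)) := by
  unfold cpos
  have h0 : ∀ v, s v v = 0 := by intro v; have := hsk v v; omega
  set G : V → V → V → ℤ := fun a b c => if a ≠ b ∧ b ≠ c ∧ c ≠ a then gg s a b c else 0 with hG
  have k1 : ∑ a, ∑ b, ∑ c, (if a ≠ b ∧ b ≠ c ∧ c ≠ a then max (curl s a b c) 0 else 0) ≤
      ∑ a, ∑ b, ∑ c, (G a b c + G b c a + G c a b) := by
    apply Finset.sum_le_sum; intro a _
    apply Finset.sum_le_sum; intro b _
    apply Finset.sum_le_sum; intro c _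
    rw [hG]; beta_reduce
    by_cases h : a ≠ b ∧ b ≠ c ∧ c ≠ a
    · have h' : b ≠ c ∧ c ≠ a ∧ a ≠ b := ⟨h.2.1, h.2.2, h.1⟩
      have h'' : c ≠ a ∧ a ≠ b ∧ b ≠ c := ⟨h.2.2, h.1, h.2.1⟩
      rw [if_pos h, if_pos h, if_pos h', if_pos h'']
      exact curl_le s h1 hsk a b c
    · have h' : ¬ (b ≠ c ∧ c ≠ a ∧ a ≠ b) := fun k => h ⟨k.2.2, k.1, k.2.1⟩
      have h'' : ¬ (c ≠ a ∧ a ≠ b ∧ b ≠ c) := fun k => h ⟨k.2.1, k.2.2, k.1⟩
      rw [if_neg h, if_neg h, if_neg h', if_neg h'']
      norm_num
  have k2 : ∑ a, ∑ b, ∑ c, (G a b c + G b c a + G c a b) = 3 * ∑ a, ∑ b, ∑ c, G a b c := by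
    simp only [Finset.sum_add_distrib]
    have r1 : ∑ a, ∑ b, ∑ c, G b c a = ∑ a, ∑ b, ∑ c, G a b c := by
      rw [Finset.sum_comm]
      apply Finset.sum_congr rfl; intro b _
      rw [Finset.sum_comm]
    have r2 : ∑ a, ∑ b, ∑ c, G c a b = ∑ a, ∑ b, ∑ c, G a b c := by
      have : ∀ a : V, ∑ b, ∑ c, G c a b = ∑ c, ∑ b, G c a b := fun a => Finset.sum_comm
      rw [Finset.sum_congr rfl (fun a _ => this a), Finset.sum_comm]
    rw [r1, r2]; ring
  have k3 : ∑ a, ∑ b, ∑ c, G a b c ≤
      (Fintype.card V : ℤ) * (((Fintype.card V - 1) ^ 2 / 4 : ℕ) : ℤ) := by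
    have hv : ∀ v, ∑ u, ∑ w, G v u w ≤ (((Fintype.card V - 1) ^ 2 / 4 : ℕ) : ℤ) := by
      intro v
      rw [hG]; beta_reduce
      rw [sum_gg s h0 v]
      have hd : (univ.filter (fun u => s v u = 1)).card ≤ Fintype.card V - 1 := by
        have hsub : univ.filter (fun u => s v u = 1) ⊆ univ.erase v := by
          intro u hu
          simp only [Finset.mem_filter, Finset.mem_univ, true_and] at hu
          refine Finset.mem_erase.2 ⟨?_, Finset.mem_univ _⟩
          rintro rfl
          rw [h0] at hu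
          exact absurd hu (by norm_num)
        have := Finset.card_le_card hsub
        rwa [Finset.card_erase_of_mem (Finset.mem_univ _), Finset.card_univ] at this
      have hb := deg_bound _ _ hd
      have hc : 1 ≤ Fintype.card V := Fintype.card_pos
      have hc' : ((Fintype.card V - 1 : ℕ) : ℤ) = (Fintype.card V : ℤ) - 1 := by
        push_cast [Nat.cast_sub hc]; ring
      rw [hc'] at hb
      exact hb
    calc _ ≤ ∑ _v : V, (((Fintype.card V - 1) ^ 2 / 4 : ℕ) : ℤ) :=
          Finset.sum_le_sum (fun v _ => hv v)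
      _ = _ := by simp
  rw [k2] at k1
  linarith

/-- The effect of the weighted family of reversals `X` on the arc from `u` to `v`. -/
theorem curl_fill [Nonempty V] (s : V → V → ℤ) (hsk : ∀ u v, s u v = - s v u)
    (hrow : ∀ v, ∑ u, s v u = 0) (X : V → V → V → ℝ)
    (hX' : ∀ a b c, X a b c = (cpos s a b c : ℝ) / (3 * Fintype.card V)) (u v : V)
    (huv : u ≠ v) :
    ∑ w, (X v u w + X w v u + X u w v) - ∑ w, (X u v w + X w u v + X v w u) = - s u v := by
  have hX : ∀ a b c, X a b c = if a ≠ b ∧ b ≠ c ∧ c ≠ a then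
      ((max (curl s a b c) 0 : ℤ) : ℝ) / (3 * Fintype.card V) else 0 := by
    intro a b c
    rw [hX']
    unfold cpos
    split_ifs
    · rfl
    · simp
  have hn : (0 : ℝ) < (Fintype.card V : ℝ) := by exact_mod_cast Fintype.card_pos
  have hcol : ∑ w, s w u = 0 := by
    have : ∑ w, s w u = - ∑ w, s u w := by
      rw [← Finset.sum_neg_distrib]
      apply Finset.sum_congr rfl; intro a _
      exact hsk a u
    rw [this, hrow]; rfl
  have hw : ∀ w, (X v u w + X w v u + X u w v) - (X u v w + X w u v + X v w u) =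
      ((- s u v - s v w - s w u : ℤ) : ℝ) / Fintype.card V +
        ((if w = u then ((s v u + s u v : ℤ) : ℝ) / Fintype.card V else 0) +
          (if w = v then ((s u v + s v u : ℤ) : ℝ) / Fintype.card V else 0)) := by
    intro w
    by_cases hwu : w = u
    · subst hwu
      have : s w w = 0 := by have := hsk w w; omega
      simp [hX, huv]
      rw [this]
      push_cast
      ring
    · by_cases hwv : w = v
      · subst hwv
        have : s w w = 0 := by have := hsk w w; omega
        simp [hX, huv.symm]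
        rw [this]
        push_cast
        ring
      · rw [if_neg hwu, if_neg hwv]
        have d1 : v ≠ u ∧ u ≠ w ∧ w ≠ v := ⟨huv.symm, fun h => hwu h.symm, hwv⟩
        have d2 : w ≠ v ∧ v ≠ u ∧ u ≠ w := ⟨hwv, huv.symm, fun h => hwu h.symm⟩
        have d3 : u ≠ w ∧ w ≠ v ∧ v ≠ u := ⟨fun h => hwu h.symm, hwv, huv.symm⟩
        have d4 : u ≠ v ∧ v ≠ w ∧ w ≠ u := ⟨huv, fun h => hwv h.symm, hwu⟩
        have d5 : w ≠ u ∧ u ≠ v ∧ v ≠ w := ⟨hwu, huv, fun h => hwv h.symm⟩
        have d6 : v ≠ w ∧ w ≠ u ∧ u ≠ v := ⟨fun h => hwv h.symm, hwu, huv⟩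
        rw [hX, hX, hX, hX, hX, hX, if_pos d1, if_pos d2, if_pos d3, if_pos d4, if_pos d5,
          if_pos d6]
        have c1 : curl s w v u = curl s v u w := by unfold curl; ring
        have c2 : curl s u w v = curl s v u w := by unfold curl; ring
        have c3 : curl s w u v = curl s u v w := by unfold curl; ring
        have c4 : curl s v w u = curl s u v w := by unfold curl; ring
        have c5 : curl s v u w = - curl s u v w := by
          unfold curl
          rw [hsk v u, hsk u w, hsk w v]; ring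
        rw [c1, c2, c3, c4, c5]
        have c6 : max (- curl s u v w) 0 = max (curl s u v w) 0 - curl s u v w := by omega
        rw [c6]
        unfold curl
        push_cast
        field_simp
        ring
  rw [← Finset.sum_sub_distrib, Finset.sum_congr rfl (fun w _ => hw w), Finset.sum_add_distrib,
    Finset.sum_add_distrib, ← Finset.sum_div]
  simp only [Finset.sum_ite_eq', Finset.mem_univ, if_true]
  have t1 : (∑ w, ((- s u v - s v w - s w u : ℤ) : ℝ)) = - (Fintype.card V : ℝ) * s u v := by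
    rw [← Int.cast_sum]
    have : ∑ w, (- s u v - s v w - s w u) = - (Fintype.card V : ℤ) * s u v := by
      rw [Finset.sum_sub_distrib, Finset.sum_sub_distrib, hrow v, hcol]
      simp
    rw [this]; push_cast; ring
  rw [t1]
  have t2 : s v u + s u v = 0 := by rw [hsk v u]; ring
  have t3 : s u v + s v u = 0 := by rw [hsk v u]; ring
  rw [t2, t3]
  field_simp
  simp

end Pool.Agent.Helper40.TI
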