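import Mathlib

/-!
Random labels: second moments over all labelings, and the choice of a good labeling.
-/

namespace Pool.Agent.Helper40.TI

open Classical Finset

variable {V : Type*} [Fintype V] {r : ℕ}

/-- Average over the labels. -/
noncomputable def mu (f : Fin r → ℝ) : ℝ := (∑ t, f t) / r

theorem sum_prod_labels (hr : 0 < r) (F : V → Fin r → ℝ) :
    ∑ l : V → Fin r, ∏ v, F v (l v) = (r : ℝ) ^ (Fintype.card V) * ∏ v, mu (F v) := by
  have h1 : ∏ v, ∑ t, F v t = ∑ l : V → Fin r, ∏ v, F v (l v) := by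
    rw [Finset.prod_univ_sum, Fintype.piFinset_univ]
  rw [← h1]
  have h2 : ∀ v, ∑ t, F v t = r * mu (F v) := by
    intro v
    unfold mu
    have : (r : ℝ) ≠ 0 := by exact_mod_cast hr.ne'
    field_simp
  simp only [h2]
  rw [Finset.prod_mul_distrib, Finset.prod_const, Finset.card_univ]

theorem mu_one (hr : 0 < r) : mu (fun _ : Fin r => (1 : ℝ)) = 1 := by
  unfold mu
  have : (r : ℝ) ≠ 0 := by exact_mod_cast hr.ne'
  simp [this]

theorem labels3 (hr : 0 < r) (g h k : Fin r → ℝ) {y x z : V} (hyx : y ≠ x) (hyz : y ≠ z)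
    (hxz : x ≠ z) :
    ∑ l : V → Fin r, g (l y) * h (l x) * k (l z) =
      (r : ℝ) ^ (Fintype.card V) * (mu g * mu h * mu k) := by
  have h1 : ∀ l : V → Fin r, g (l y) * h (l x) * k (l z) =
      ∏ v, ((if v = y then g (l v) else 1) * (if v = x then h (l v) else 1) *
        (if v = z then k (l v) else 1)) := by
    intro l
    rw [Finset.prod_mul_distrib, Finset.prod_mul_distrib, Finset.prod_ite_eq' ,
      Finset.prod_ite_eq', Finset.prod_ite_eq']
    simp
  simp only [h1]
  rw [sum_prod_labels hr (fun v t => (if v = y then g t else 1) * (if v = x then h t else 1) *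
        (if v = z then k t else 1))]
  congr 1
  have h2 : ∀ v : V, mu (fun t => (if v = y then g t else 1) * (if v = x then h t else 1) *
        (if v = z then k t else 1)) = (if v = y then mu g else 1) * (if v = x then mu h else 1) *
        (if v = z then mu k else 1) := by
    intro v
    by_cases c1 : v = y
    · have c2 : v ≠ x := fun h => hyx (c1.symm.trans h)
      have c3 : v ≠ z := fun h => hyz (c1.symm.trans h)
      simp [c1, hyx, hyz]
    · by_cases c2 : v = x
      · have c3 : v ≠ z := fun h => hxz (c2.symm.trans h)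
        simp [c2, hyx.symm, hxz]
      · by_cases c3 : v = z
        · simp [c3, hyz.symm, hxz.symm]
        · simp [c1, c2, c3, mu_one hr]
  simp only [h2]
  rw [Finset.prod_mul_distrib, Finset.prod_mul_distrib, Finset.prod_ite_eq',
    Finset.prod_ite_eq', Finset.prod_ite_eq']
  simp

theorem labels2 (hr : 0 < r) (g h : Fin r → ℝ) {y x : V} (hyx : y ≠ x) :
    ∑ l : V → Fin r, g (l y) * h (l x) = (r : ℝ) ^ (Fintype.card V) * (mu g * mu h) := by
  have h1 : ∀ l : V → Fin r, g (l y) * h (l x) =
      ∏ v, ((if v = y then g (l v) else 1) * (if v = x then h (l v) else 1)) := by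
    intro l
    rw [Finset.prod_mul_distrib, Finset.prod_ite_eq', Finset.prod_ite_eq']
    simp
  simp only [h1]
  rw [sum_prod_labels hr (fun v t => (if v = y then g t else 1) * (if v = x then h t else 1))]
  congr 1
  have h2 : ∀ v : V, mu (fun t => (if v = y then g t else 1) * (if v = x then h t else 1)) =
      (if v = y then mu g else 1) * (if v = x then mu h else 1) := by
    intro v
    by_cases c1 : v = y
    · simp [c1, hyx]
    · by_cases c2 : v = x
      · simp [c2, hyx.symm]
      · simp [c1, c2, mu_one hr]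
  simp only [h2]
  rw [Finset.prod_mul_distrib, Finset.prod_ite_eq', Finset.prod_ite_eq']
  simp

/-- Second moment of a weighted sum with weights of sum zero. -/
theorem second_moment (hr : 0 < r) (g h : Fin r → ℝ) (hg : ∀ t, 0 ≤ g t) (y : V) (a : V → ℝ)
    (ha : ∑ x, a x = 0) (hay : a y = 0) :
    ∑ l : V → Fin r, g (l y) * (∑ x, a x * h (l x)) ^ 2 ≤
      (r : ℝ) ^ (Fintype.card V) * (mu g * mu (fun t => h t ^ 2)) * ∑ x, (a x) ^ 2 := by
  have hmg : 0 ≤ mu g := div_nonneg (Finset.sum_nonneg (fun t _ => hg t)) (by positivity)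
  have e1 : ∀ l : V → Fin r, g (l y) * (∑ x, a x * h (l x)) ^ 2 =
      ∑ x, ∑ z, (a x * a z) * (g (l y) * h (l x) * h (l z)) := by
    intro l
    rw [sq, Finset.sum_mul_sum, Finset.mul_sum]
    apply Finset.sum_congr rfl
    intro x _
    rw [Finset.mul_sum]
    apply Finset.sum_congr rfl
    intro z _
    ring
  simp only [e1]
  rw [Finset.sum_comm]
  have e2 : ∀ x, ∑ l : V → Fin r, ∑ z, (a x * a z) * (g (l y) * h (l x) * h (l z)) =
      ∑ z, (a x * a z) * ∑ l : V → Fin r, (g (l y) * h (l x) * h (l z)) := by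
    intro x
    rw [Finset.sum_comm]
    apply Finset.sum_congr rfl
    intro z _
    rw [Finset.mul_sum]
  simp only [e2]
  set R : ℝ := (r : ℝ) ^ (Fintype.card V) with hR
  have hR0 : 0 ≤ R := by positivity
  have e3 : ∀ x z, (a x * a z) * ∑ l : V → Fin r, (g (l y) * h (l x) * h (l z)) =
      (a x * a z) * (R * (mu g * mu h * mu h)) +
      (if x = z then (a x) ^ 2 * (R * (mu g * (mu (fun t => h t ^ 2) - mu h ^ 2))) else 0) := by
    intro x z
    by_cases hx : x = y
    · subst hx; simp [hay]
    · by_cases hz : z = y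
      · subst hz
        rw [hay, if_neg hx]; simp
      · by_cases hxz : x = z
        · subst hxz
          rw [if_pos rfl]
          have : ∀ l : V → Fin r, g (l y) * h (l x) * h (l x) = g (l y) * (h (l x)) ^ 2 := by
            intro l; ring
          simp only [this]
          rw [labels2 hr g (fun t => h t ^ 2) (fun h => hx h.symm)]
          ring
        · rw [if_neg hxz, labels3 hr g h h (fun h => hx h.symm) (fun h => hz h.symm) hxz]
          ring
  simp only [e3, Finset.sum_add_distrib]
  have e4 : ∑ x, ∑ z, (a x * a z) * (R * (mu g * mu h * mu h)) = 0 := by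
    have : ∀ x, ∑ z, (a x * a z) * (R * (mu g * mu h * mu h)) = 0 := by
      intro x
      rw [← Finset.sum_mul, ← Finset.mul_sum, ha]
      ring
    simp [this]
  rw [e4, zero_add]
  simp only [Finset.sum_ite_eq, Finset.mem_univ, if_true]
  rw [← Finset.sum_mul]
  have hS : 0 ≤ ∑ x, (a x) ^ 2 := Finset.sum_nonneg (fun x _ => sq_nonneg _)
  have : R * (mu g * (mu (fun t => h t ^ 2) - mu h ^ 2)) ≤ R * (mu g * mu (fun t => h t ^ 2)) := by
    apply mul_le_mul_of_nonneg_left _ hR0
    apply mul_le_mul_of_nonneg_left _ hmg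
    linarith [sq_nonneg (mu h)]
  calc (∑ x, (a x) ^ 2) * (R * (mu g * (mu (fun t => h t ^ 2) - mu h ^ 2)))
      ≤ (∑ x, (a x) ^ 2) * (R * (mu g * mu (fun t => h t ^ 2))) :=
        mul_le_mul_of_nonneg_left this hS
    _ = _ := by ring

theorem mu_ind (i : Fin r) : mu (fun t : Fin r => (if t = i then (1 : ℝ) else 0)) = 1 / r := by
  unfold mu
  simp

theorem mu_le_one (hr : 0 < r) (f : Fin r → ℝ) (hf : ∀ t, f t ≤ 1) : mu f ≤ 1 := by
  unfold mu
  have hr' : (0 : ℝ) < r := by exact_mod_cast hr
  rw [div_le_one hr']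
  calc ∑ t, f t ≤ ∑ _t : Fin r, (1 : ℝ) := Finset.sum_le_sum (fun t _ => hf t)
    _ = r := by simp

theorem exists_labels (hr : 0 < r) [Nonempty V] (s : V → V → ℝ) (hs1 : ∀ x y, |s x y| ≤ 1)
    (hrow : ∀ x, ∑ y, s x y = 0) (hcol : ∀ y, ∑ x, s x y = 0) (hdiag : ∀ x, s x x = 0) :
    ∃ l : V → Fin r,
      (∑ x, ∑ i, (∑ y, s x y * (if l y = i then 1 else 0)) ^ 2 ≤
        3 * (Fintype.card V : ℝ) ^ 2) ∧
      (∑ y, (∑ x, s x y * (if l y < l x then 1 else 0)) ^ 2 ≤ 3 * (Fintype.card V : ℝ) ^ 2) ∧
      (∑ i, (∑ y, (if l y = i then (1 : ℝ) else 0)) ^ 2 ≤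
        3 * ((Fintype.card V : ℝ) + (Fintype.card V : ℝ) ^ 2 / r)) := by
  set N : ℝ := (Fintype.card V : ℝ) with hN
  have hN0 : 0 < N := by
    rw [hN]; exact_mod_cast Fintype.card_pos
  have hr' : (0 : ℝ) < r := by exact_mod_cast hr
  set R : ℝ := (r : ℝ) ^ (Fintype.card V) with hR
  have hR0 : 0 < R := by positivity
  have hsq : ∀ x y, (s x y) ^ 2 ≤ 1 := by
    intro x y
    have := hs1 x y
    rw [← sq_abs]
    have h0 := abs_nonneg (s x y)
    nlinarith
  have hss : ∀ x, ∑ y, (s x y) ^ 2 ≤ N := by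
    intro x
    calc ∑ y, (s x y) ^ 2 ≤ ∑ _y : V, (1 : ℝ) := Finset.sum_le_sum (fun y _ => hsq x y)
      _ = N := by simp [hN]
  have hss' : ∀ y, ∑ x, (s x y) ^ 2 ≤ N := by
    intro y
    calc ∑ x, (s x y) ^ 2 ≤ ∑ _x : V, (1 : ℝ) := Finset.sum_le_sum (fun x _ => hsq x y)
      _ = N := by simp [hN]
  have sumN : ∑ _x : V, N = N ^ 2 := by
    simp [hN]; ring
  -- A
  have hA : ∑ l : V → Fin r, ∑ x, ∑ i, (∑ y, s x y * (if l y = i then 1 else 0)) ^ 2 ≤
      R * N ^ 2 := by
    rw [Finset.sum_comm]
    have : ∀ x, ∑ l : V → Fin r, ∑ i, (∑ y, s x y * (if l y = i then 1 else 0)) ^ 2 ≤ R * N := by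
      intro x
      rw [Finset.sum_comm]
      have h1 : ∀ i, ∑ l : V → Fin r, (∑ y, s x y * (if l y = i then 1 else 0)) ^ 2 ≤
          R * (1 / r) * N := by
        intro i
        have := second_moment (V := V) hr (fun _ => 1) (fun t => if t = i then 1 else 0)
          (fun _ => zero_le_one) x (s x) (hrow x) (hdiag x)
        simp only [one_mul] at this
        refine this.trans ?_
        have h2 : mu (fun t : Fin r => (if t = i then (1 : ℝ) else 0) ^ 2) = 1 / r := by
          have : (fun t : Fin r => (if t = i then (1 : ℝ) else 0) ^ 2) =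
              fun t => (if t = i then (1 : ℝ) else 0) := by
            funext t; split_ifs <;> norm_num
          rw [this, mu_ind]
        rw [h2, mu_one hr, one_mul]
        exact mul_le_mul_of_nonneg_left (hss x) (by positivity)
      calc ∑ i, ∑ l : V → Fin r, (∑ y, s x y * (if l y = i then 1 else 0)) ^ 2
          ≤ ∑ _i : Fin r, R * (1 / r) * N := Finset.sum_le_sum (fun i _ => h1 i)
        _ = R * N := by simp; field_simp
    calc ∑ x, ∑ l : V → Fin r, ∑ i, (∑ y, s x y * (if l y = i then 1 else 0)) ^ 2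
        ≤ ∑ _x : V, R * N := Finset.sum_le_sum (fun x _ => this x)
      _ = R * N ^ 2 := by rw [← Finset.mul_sum, sumN]
  -- B
  have hB : ∑ l : V → Fin r, ∑ y, (∑ x, s x y * (if l y < l x then 1 else 0)) ^ 2 ≤
      R * N ^ 2 := by
    rw [Finset.sum_comm]
    have : ∀ y, ∑ l : V → Fin r, (∑ x, s x y * (if l y < l x then 1 else 0)) ^ 2 ≤ R * N := by
      intro y
      have e1 : ∀ l : V → Fin r, (∑ x, s x y * (if l y < l x then 1 else 0)) ^ 2 =
          ∑ j, (if l y = j then 1 else 0) * (∑ x, s x y * (if j < l x then 1 else 0)) ^ 2 := by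
        intro l
        rw [Finset.sum_eq_single (l y)]
        · simp
        · intro j _ hj
          rw [if_neg (Ne.symm hj), zero_mul]
        · simp
      simp only [e1]
      rw [Finset.sum_comm]
      have h1 : ∀ j, ∑ l : V → Fin r, (if l y = j then 1 else 0) *
          (∑ x, s x y * (if j < l x then 1 else 0)) ^ 2 ≤ R * (1 / r) * N := by
        intro j
        have := second_moment (V := V) hr (fun t => if t = j then 1 else 0)
          (fun t => if j < t then 1 else 0)
          (fun t => by split_ifs <;> norm_num) y (fun x => s x y) (hcol y) (hdiag y)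
        refine this.trans ?_
        rw [mu_ind]
        have h2 : mu (fun t : Fin r => (if j < t then (1 : ℝ) else 0) ^ 2) ≤ 1 :=
          mu_le_one hr _ (fun t => by split_ifs <;> norm_num)
        have h3 : R * (1 / r * mu (fun t : Fin r => (if j < t then (1 : ℝ) else 0) ^ 2)) ≤
            R * (1 / r) := by
          apply mul_le_mul_of_nonneg_left _ hR0.le
          calc 1 / (r : ℝ) * mu (fun t : Fin r => (if j < t then (1 : ℝ) else 0) ^ 2)
              ≤ 1 / r * 1 := mul_le_mul_of_nonneg_left h2 (by positivity)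
            _ = 1 / r := mul_one _
        calc R * (1 / r * mu (fun t : Fin r => (if j < t then (1 : ℝ) else 0) ^ 2)) *
              ∑ x, (s x y) ^ 2 ≤ R * (1 / r) * ∑ x, (s x y) ^ 2 :=
              mul_le_mul_of_nonneg_right h3 (Finset.sum_nonneg (fun _ _ => sq_nonneg _))
          _ ≤ R * (1 / r) * N := mul_le_mul_of_nonneg_left (hss' y) (by positivity)
      calc ∑ j, ∑ l : V → Fin r, (if l y = j then 1 else 0) *
          (∑ x, s x y * (if j < l x then 1 else 0)) ^ 2
          ≤ ∑ _j : Fin r, R * (1 / r) * N := Finset.sum_le_sum (fun i _ => h1 i)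
        _ = R * N := by simp; field_simp
    calc ∑ y, ∑ l : V → Fin r, (∑ x, s x y * (if l y < l x then 1 else 0)) ^ 2
        ≤ ∑ _y : V, R * N := Finset.sum_le_sum (fun x _ => this x)
      _ = R * N ^ 2 := by rw [← Finset.mul_sum, sumN]
  -- C
  have hC : ∑ l : V → Fin r, ∑ i, (∑ y, (if l y = i then (1 : ℝ) else 0)) ^ 2 ≤
      R * (N + N ^ 2 / r) := by
    rw [Finset.sum_comm]
    have h1 : ∀ i, ∑ l : V → Fin r, (∑ y, (if l y = i then (1 : ℝ) else 0)) ^ 2 ≤
        R * (N ^ 2 / r ^ 2 + N / r) := by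
      intro i
      have e1 : ∀ l : V → Fin r, (∑ y, (if l y = i then (1 : ℝ) else 0)) ^ 2 =
          ∑ y, ∑ z, (if l y = i then (1 : ℝ) else 0) * (if l z = i then (1 : ℝ) else 0) := by
        intro l
        rw [sq, Finset.sum_mul_sum]
      simp only [e1]
      rw [Finset.sum_comm]
      have e2 : ∀ y z : V, ∑ l : V → Fin r, (if l y = i then (1 : ℝ) else 0) *
          (if l z = i then (1 : ℝ) else 0) ≤ R * (1 / r ^ 2) + (if y = z then R * (1 / r) else 0) := by
        intro y z
        by_cases hyz : y = z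
        · subst hyz
          rw [if_pos rfl]
          have : ∀ l : V → Fin r, (if l y = i then (1 : ℝ) else 0) *
              (if l y = i then (1 : ℝ) else 0) = (if l y = i then (1 : ℝ) else 0) := by
            intro l; split_ifs <;> norm_num
          simp only [this]
          have h3 : ∑ l : V → Fin r, (if l y = i then (1 : ℝ) else 0) = R * (1 / r) := by
            have := sum_prod_labels (V := V) hr (fun v t => if v = y then
              (if t = i then (1 : ℝ) else 0) else 1)
            simp only [Finset.prod_ite_eq', Finset.mem_univ, if_true] at this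
            rw [this]
            have h4 : ∀ v : V, mu (fun t : Fin r => if v = y then
                (if t = i then (1 : ℝ) else 0) else 1) = if v = y then 1 / (r : ℝ) else 1 := by
              intro v
              by_cases hv : v = y
              · simp only [hv, if_true]; exact mu_ind i
              · simp only [hv, if_false]; exact mu_one hr
            simp only [h4, Finset.prod_ite_eq', Finset.mem_univ, if_true]
            rfl
          rw [h3]
          have : 0 ≤ R * (1 / (r : ℝ) ^ 2) := by positivity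
          linarith
        · rw [if_neg hyz, labels2 hr (fun t => if t = i then (1 : ℝ) else 0)
            (fun t => if t = i then (1 : ℝ) else 0) hyz, mu_ind]
          apply le_of_eq
          have : (1 : ℝ) / r * (1 / r) = 1 / r ^ 2 := by field_simp
          rw [this]
          simp [hR]
      calc ∑ y, ∑ l : V → Fin r, ∑ z, (if l y = i then (1 : ℝ) else 0) *
            (if l z = i then (1 : ℝ) else 0)
          = ∑ y, ∑ z, ∑ l : V → Fin r, (if l y = i then (1 : ℝ) else 0) *
            (if l z = i then (1 : ℝ) else 0) := by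
              apply Finset.sum_congr rfl; intro y _
              rw [Finset.sum_comm]
        _ ≤ ∑ y : V, ∑ z : V, (R * (1 / r ^ 2) + (if y = z then R * (1 / r) else 0)) :=
            Finset.sum_le_sum (fun y _ => Finset.sum_le_sum (fun z _ => e2 y z))
        _ = R * (N ^ 2 / r ^ 2 + N / r) := by
            simp only [Finset.sum_add_distrib, Finset.sum_const, Finset.card_univ, nsmul_eq_mul,
              Finset.sum_ite_eq, Finset.mem_univ, if_true]
            rw [← hN]
            ring
    calc ∑ i, ∑ l : V → Fin r, (∑ y, (if l y = i then (1 : ℝ) else 0)) ^ 2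
        ≤ ∑ _i : Fin r, R * (N ^ 2 / r ^ 2 + N / r) := Finset.sum_le_sum (fun i _ => h1 i)
      _ = R * (N + N ^ 2 / r) := by
          simp
          field_simp
          ring
  set K : ℝ := N + N ^ 2 / r with hK
  have hK0 : 0 < K := by positivity
  have hN2 : 0 < N ^ 2 := by positivity
  have htot : ∑ l : V → Fin r,
      ((∑ x, ∑ i, (∑ y, s x y * (if l y = i then 1 else 0)) ^ 2) / N ^ 2 +
        (∑ y, (∑ x, s x y * (if l y < l x then 1 else 0)) ^ 2) / N ^ 2 +
        (∑ i, (∑ y, (if l y = i then (1 : ℝ) else 0)) ^ 2) / K) ≤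
      ∑ _l : V → Fin r, (3 : ℝ) := by
    simp only [Finset.sum_add_distrib, ← Finset.sum_div]
    have t1 := (div_le_iff₀ hN2).2 hA
    have t2 := (div_le_iff₀ hN2).2 hB
    have t3 := (div_le_iff₀ hK0).2 hC
    have t4 : ∑ _l : V → Fin r, (3 : ℝ) = 3 * R := by
      simp [hR]; ring
    rw [t4]
    linarith
  haveI : Nonempty (V → Fin r) := ⟨fun _ => ⟨0, hr⟩⟩
  obtain ⟨l, -, hl⟩ := Finset.exists_le_of_sum_le Finset.univ_nonempty htot
  have p1 : 0 ≤ (∑ x, ∑ i, (∑ y, s x y * (if l y = i then 1 else 0)) ^ 2) / N ^ 2 :=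
    div_nonneg (Finset.sum_nonneg (fun _ _ => Finset.sum_nonneg (fun _ _ => sq_nonneg _))) hN2.le
  have p2 : 0 ≤ (∑ y, (∑ x, s x y * (if l y < l x then 1 else 0)) ^ 2) / N ^ 2 :=
    div_nonneg (Finset.sum_nonneg (fun _ _ => sq_nonneg _)) hN2.le
  have p3 : 0 ≤ (∑ i, (∑ y, (if l y = i then (1 : ℝ) else 0)) ^ 2) / K :=
    div_nonneg (Finset.sum_nonneg (fun _ _ => sq_nonneg _)) hK0.le
  refine ⟨l, ?_, ?_, ?_⟩
  · rw [← div_le_iff₀ hN2]; linarith
  · rw [← div_le_iff₀ hN2]; linarith
  · rw [← div_le_iff₀ hK0]; linarith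

end Pool.Agent.Helper40.TI
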