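import Pool.Agent.Helper40.TI.Flow2
import Pool.Agent.Helper40.TI.Batch
import Pool.Agent.Helper40.TI.Labels

/-!
Assembling the batches of a labelling into one chain.
-/

namespace Pool.Agent.Helper40.TI

open Classical Finset

variable {V : Type*} [Fintype V]

theorem sum_labels {r : ℕ} (l : V → Fin r) (f : Fin r → V → V → ℝ) :
    ∑ u, ∑ v, (if l v < l u then f (l v) u v else 0) =
      ∑ i, ∑ u ∈ univ.filter (fun x => i < l x), ∑ v ∈ univ.filter (fun y => l y = i),
        f i u v := by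
  have h1 : ∀ i : Fin r, ∑ u ∈ univ.filter (fun x => i < l x),
      ∑ v ∈ univ.filter (fun y => l y = i), f i u v =
      ∑ u, ∑ v, (if l v = i ∧ i < l u then f i u v else 0) := by
    intro i
    rw [Finset.sum_filter]
    apply Finset.sum_congr rfl; intro u _
    by_cases h : i < l u
    · rw [if_pos h, Finset.sum_filter]
      apply Finset.sum_congr rfl; intro v _
      simp [h]
    · rw [if_neg h]
      symm
      apply Finset.sum_eq_zero; intro v _
      simp [h]
  rw [Finset.sum_congr rfl (fun i _ => h1 i)]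
  conv_rhs => rw [Finset.sum_comm]
  apply Finset.sum_congr rfl; intro u _
  conv_rhs => rw [Finset.sum_comm]
  apply Finset.sum_congr rfl; intro v _
  rw [Finset.sum_eq_single (l v)]
  · simp
  · intro b _ hb; simp [hb.symm]
  · simp

theorem sum_labels' {r : ℕ} (l : V → Fin r) (g : Fin r → V → ℝ) :
    ∑ i, ∑ v ∈ univ.filter (fun y => l y = i), g i v = ∑ v, g (l v) v := by
  have h1 : ∀ i : Fin r, ∑ v ∈ univ.filter (fun y => l y = i), g i v =
      ∑ v, (if l v = i then g i v else 0) := by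
    intro i
    rw [Finset.sum_filter]
  rw [Finset.sum_congr rfl (fun i _ => h1 i), Finset.sum_comm]
  apply Finset.sum_congr rfl; intro v _
  rw [Finset.sum_eq_single (l v)]
  · simp
  · intro b _ hb; simp [hb.symm]
  · simp

theorem assemble [Nonempty V] {r : ℕ} (l : V → Fin r) (s : V → V → ℤ)
    (hs1 : ∀ u v, s u v = -1 ∨ s u v = 0 ∨ s u v = 1) (hsk : ∀ u v, s u v = - s v u)
    (hrow : ∀ u, ∑ v, s u v = 0) (m N : Fin r → ℝ)
    (hm : ∀ i, m i = ((univ.filter (fun y => l y = i)).card : ℝ))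
    (hN : ∀ i, N i = ((univ.filter (fun x => i < l x)).card : ℝ)) (L C B : ℝ)
    (hL : L = ∑ i, ∑ x ∈ univ.filter (fun x => i < l x),
      |((∑ y ∈ univ.filter (fun y => l y = i), s x y : ℤ) : ℝ)|)
    (hC : C = ∑ i, m i ^ 2)
    (hB : B = ∑ b, |((∑ x ∈ univ.filter (fun x => l b < l x), s x b : ℤ) : ℝ)|) :
    ∃ φ : V → V → V → ℤ, (∀ x a b, φ x a b = - φ x b a) ∧
      (∀ x a b, φ x a b ≠ 0 → x ≠ a ∧ x ≠ b) ∧ (∀ u v, bf φ u v = s u v) ∧
      ((∑ x, ∑ a, ∑ b, max (φ x a b) 0 : ℤ) : ℝ) ≤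
        ∑ i, (N i * m i / 2 + m i * Real.sqrt (3 * N i)) +
          (4 * L + C + ∑ i, m i * Real.sqrt (3 * m i * N i) + 2 * B) / 2 := by
  set Y : Fin r → Finset V := fun i => univ.filter (fun y => l y = i) with hY
  set X' : Fin r → Finset V := fun i => univ.filter (fun x => i < l x) with hX'
  have mY : ∀ i y, y ∈ Y i ↔ l y = i := by intro i y; simp [hY]
  have mX : ∀ i x, x ∈ X' i ↔ i < l x := by intro i x; simp [hX']
  choose σ g1 g2 g3 g4 using fun i x => balance (Y i) (s x) (hs1 x)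
  choose F f1 f2 f3 f4 f5 using fun i => batch_flows (Y i) (σ i) (X' i) (fun x _ => g1 i x)
    (fun x _ => g2 i x) (fun x _ => g3 i x)
  set φ1 : V → V → V → ℤ := fun x a b => ∑ i, F i x a b with hφ1
  have skew1 : ∀ x a b, φ1 x a b = - φ1 x b a := by
    intro x a b
    rw [hφ1]; beta_reduce
    rw [← Finset.sum_neg_distrib]
    apply Finset.sum_congr rfl; intro i _
    exact f1 i x a b
  have supp1 : ∀ x a b, φ1 x a b ≠ 0 → l a = l b ∧ l a < l x := by
    intro x a b h
    obtain ⟨i, _, hi⟩ := Finset.exists_ne_zero_of_sum_ne_zero h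
    obtain ⟨h1, h2, h3⟩ := f2 i x a b hi
    rw [mX] at h1; rw [mY] at h2 h3
    rw [h2, h3]; exact ⟨rfl, h1⟩
  have supp1' : ∀ x a b, φ1 x a b ≠ 0 → x ≠ a ∧ x ≠ b := by
    intro x a b h
    obtain ⟨h1, h2⟩ := supp1 x a b h
    constructor
    · rintro rfl; exact lt_irrefl _ h2
    · rintro rfl; rw [h1] at h2; exact lt_irrefl _ h2
  have tau : ∀ x b, ∑ a, φ1 x a b = if l b < l x then σ (l b) x b else 0 := by
    intro x b
    rw [hφ1]; beta_reduce
    rw [Finset.sum_comm, Finset.sum_eq_single (l b)]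
    · split_ifs with h
      · exact f3 (l b) x ((mX _ _).2 h) b
      · apply Finset.sum_eq_zero; intro a _
        by_contra hne
        exact h ((mX _ _).1 (f2 _ _ _ _ hne).1)
    · intro i _ hi
      apply Finset.sum_eq_zero; intro a _
      by_contra hne
      exact hi ((mY _ _).1 (f2 _ _ _ _ hne).2.2).symm
    · simp
  set Φ : V → V → ℤ := fun a b => ∑ x, φ1 x a b with hΦ
  have bf1 : ∀ u v, bf φ1 u v = (if l v < l u then σ (l v) u v else 0) -
      (if l u < l v then σ (l u) v u else 0) + Φ v u := by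
    intro u v
    unfold bf
    rw [tau, tau]
  set E : V → V → ℤ := fun u v => s u v - bf φ1 u v with hE
  have Eskew : ∀ a b, E a b = - E b a := by
    intro a b
    rw [hE]; beta_reduce
    rw [hsk a b, bf_skew φ1 skew1 a b]; ring
  have Ecol : ∀ b, ∑ a, E a b = 0 := by
    intro b
    rw [hE]; beta_reduce
    rw [Finset.sum_sub_distrib, bf_sum φ1 skew1]
    have : ∑ a, s a b = - ∑ a, s b a := by
      rw [← Finset.sum_neg_distrib]
      apply Finset.sum_congr rfl; intro a _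
      exact hsk a b
    rw [this, hrow]; rfl
  obtain ⟨φ2, c1, c2, c3, c4⟩ := cone E Eskew Ecol
  -- bound for |E|
  have absE : ∀ u v, |(E u v : ℝ)| ≤ (if l v < l u then |(s u v : ℝ) - σ (l v) u v| else 0) +
      (if l u < l v then |(s v u : ℝ) - σ (l u) v u| else 0) +
      (if l v = l u then 1 else 0) + |(Φ v u : ℝ)| := by
    intro u v
    rw [hE]; beta_reduce
    rw [bf1]
    rcases lt_trichotomy (l v) (l u) with h | h | h
    · have h' : ¬ (l u < l v) := not_lt.2 h.le
      have h'' : ¬ (l v = l u) := h.ne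
      rw [if_pos h, if_neg h', if_pos h, if_neg h', if_neg h'']
      have : ((s u v - (σ (l v) u v - 0 + Φ v u) : ℤ) : ℝ) =
          ((s u v : ℝ) - σ (l v) u v) - Φ v u := by push_cast; ring
      rw [this]
      have := abs_sub ((s u v : ℝ) - σ (l v) u v) (Φ v u : ℝ)
      linarith
    · have h1 : ¬ (l v < l u) := by rw [h]; exact lt_irrefl _
      have h2 : ¬ (l u < l v) := by rw [h]; exact lt_irrefl _
      rw [if_neg h1, if_neg h2, if_neg h1, if_neg h2, if_pos h]
      have : ((s u v - (0 - 0 + Φ v u) : ℤ) : ℝ) = (s u v : ℝ) - Φ v u := by push_cast; ring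
      rw [this]
      have h3 := abs_sub (s u v : ℝ) (Φ v u : ℝ)
      have h4 : |(s u v : ℝ)| ≤ 1 := by
        rcases hs1 u v with h | h | h <;> simp [h]
      linarith
    · have h' : ¬ (l v < l u) := not_lt.2 h.le
      have h'' : ¬ (l v = l u) := h.ne'
      rw [if_neg h', if_pos h, if_neg h', if_pos h, if_neg h'']
      have : ((s u v - (0 - σ (l u) v u + Φ v u) : ℤ) : ℝ) =
          - ((s v u : ℝ) - σ (l u) v u) - Φ v u := by
        rw [hsk u v]; push_cast; ring
      rw [this]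
      have := abs_sub (- ((s v u : ℝ) - σ (l u) v u)) (Φ v u : ℝ)
      rw [abs_neg] at this
      linarith
  -- the sum of the erased entries
  have hLsum : ∑ i, ∑ x ∈ X' i, ∑ y ∈ Y i, |(s x y : ℝ) - σ i x y| = L := by
    rw [hL]
    apply Finset.sum_congr rfl; intro i _
    apply Finset.sum_congr rfl; intro x _
    have := g4 i x
    have h : ((∑ y ∈ Y i, |s x y - σ i x y| : ℤ) : ℝ) = ((|∑ y ∈ Y i, s x y| : ℤ) : ℝ) := by
      rw [this]
    push_cast at h
    rw [h]
    push_cast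
    rfl
  have hS1 : ∑ u, ∑ v, (if l v < l u then |(s u v : ℝ) - σ (l v) u v| else 0) = L := by
    rw [sum_labels l (fun i u v => |(s u v : ℝ) - σ i u v|)]
    exact hLsum
  have hS2 : ∑ u, ∑ v, (if l u < l v then |(s v u : ℝ) - σ (l u) v u| else 0) = L := by
    rw [Finset.sum_comm]; exact hS1
  have hS3 : ∑ u, ∑ v, (if l v = l u then (1 : ℝ) else 0) = C := by
    rw [hC]
    have : ∀ u, ∑ v, (if l v = l u then (1 : ℝ) else 0) = m (l u) := by
      intro u
      rw [hm]; simp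
    rw [Finset.sum_congr rfl (fun u _ => this u), ← sum_labels' l (fun i _ => m i)]
    apply Finset.sum_congr rfl; intro i _
    rw [Finset.sum_const, nsmul_eq_mul, ← hm]; ring
  have hS4 : ∑ u, ∑ v, |(Φ v u : ℝ)| ≤ ∑ i, m i * Real.sqrt (3 * m i * N i) + 2 * (B + L) := by
    have e1 : ∀ a b, |(Φ a b : ℝ)| ≤ ∑ i, |((∑ x ∈ X' i, F i x a b : ℤ) : ℝ)| := by
      intro a b
      have : Φ a b = ∑ i, ∑ x ∈ X' i, F i x a b := by
        rw [hΦ]; beta_reduce
        rw [hφ1]; beta_reduce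
        rw [Finset.sum_comm]
        apply Finset.sum_congr rfl; intro i _
        symm
        apply Finset.sum_subset (Finset.subset_univ _)
        intro x _ hx
        by_contra hne
        exact hx (f2 _ _ _ _ hne).1
      rw [this, Int.cast_sum]
      exact Finset.abs_sum_le_sum_abs _ _
    have e2 : ∑ u, ∑ v, |(Φ v u : ℝ)| ≤ ∑ i, ∑ a, ∑ b, |((∑ x ∈ X' i, F i x a b : ℤ) : ℝ)| := by
      rw [Finset.sum_comm]
      calc ∑ v, ∑ u, |(Φ v u : ℝ)| ≤
          ∑ v, ∑ u, ∑ i, |((∑ x ∈ X' i, F i x v u : ℤ) : ℝ)| := by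
            apply Finset.sum_le_sum; intro a _
            apply Finset.sum_le_sum; intro b _
            exact e1 a b
        _ = _ := by
            have : ∀ v : V, ∑ u, ∑ i, |((∑ x ∈ X' i, F i x v u : ℤ) : ℝ)| =
                ∑ i, ∑ u, |((∑ x ∈ X' i, F i x v u : ℤ) : ℝ)| := fun v => Finset.sum_comm
            rw [Finset.sum_congr rfl (fun v _ => this v), Finset.sum_comm]
    refine e2.trans ?_
    have e3 : ∀ i, ∑ a, ∑ b, |((∑ x ∈ X' i, F i x a b : ℤ) : ℝ)| ≤
        m i * Real.sqrt (3 * m i * N i) +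
          2 * (∑ b ∈ Y i, |((∑ x ∈ X' i, s x b : ℤ) : ℝ)| +
            ∑ x ∈ X' i, ∑ b ∈ Y i, |(s x b : ℝ) - σ i x b|) := by
      intro i
      have h5 := f5 i
      rw [← hm, ← hN] at h5
      refine h5.trans ?_
      have h6 : ∑ b ∈ Y i, |((∑ x ∈ X' i, σ i x b : ℤ) : ℝ)| ≤
          ∑ b ∈ Y i, |((∑ x ∈ X' i, s x b : ℤ) : ℝ)| +
            ∑ x ∈ X' i, ∑ b ∈ Y i, |(s x b : ℝ) - σ i x b| := by
        rw [Finset.sum_comm (s := X' i), ← Finset.sum_add_distrib]
        apply Finset.sum_le_sum; intro b _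
        have h7 : ((∑ x ∈ X' i, σ i x b : ℤ) : ℝ) = ((∑ x ∈ X' i, s x b : ℤ) : ℝ) -
            ∑ x ∈ X' i, ((s x b : ℝ) - σ i x b) := by
          rw [Finset.sum_sub_distrib]; push_cast; ring
        rw [h7]
        have h8 := abs_sub ((∑ x ∈ X' i, s x b : ℤ) : ℝ) (∑ x ∈ X' i, ((s x b : ℝ) - σ i x b))
        have h9 := Finset.abs_sum_le_sum_abs (fun x => (s x b : ℝ) - σ i x b) (X' i)
        linarith
      linarith
    refine (Finset.sum_le_sum (fun i _ => e3 i)).trans ?_
    rw [Finset.sum_add_distrib, ← Finset.mul_sum, Finset.sum_add_distrib, hLsum]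
    have e4 : ∑ i, ∑ b ∈ Y i, |((∑ x ∈ X' i, s x b : ℤ) : ℝ)| = B := by
      rw [hB, ← sum_labels' l (fun i b => |((∑ x ∈ X' i, s x b : ℤ) : ℝ)|)]
    rw [e4]
  have hEsum : ((∑ a, ∑ b, |E a b| : ℤ) : ℝ) ≤ 4 * L + C +
      ∑ i, m i * Real.sqrt (3 * m i * N i) + 2 * B := by
    push_cast
    refine (Finset.sum_le_sum (fun u _ => Finset.sum_le_sum (fun v _ => absE u v))).trans ?_
    simp only [Finset.sum_add_distrib]
    rw [hS1, hS2, hS3]
    linarith
  refine ⟨fun x a b => φ1 x a b + φ2 x a b, ?_, ?_, ?_, ?_⟩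
  · intro x a b
    beta_reduce
    rw [skew1 x a b, c1 x a b]; ring
  · intro x a b h
    beta_reduce at h
    by_cases h1 : φ1 x a b = 0
    · rw [h1, zero_add] at h
      exact c2 x a b h
    · exact supp1' x a b h1
  · intro u v
    rw [bf_add, c3, hE]; beta_reduce; ring
  · have k1 : ∑ x, ∑ a, ∑ b, max (φ1 x a b + φ2 x a b) 0 ≤
        ∑ x, ∑ a, ∑ b, max (φ1 x a b) 0 + ∑ x, ∑ a, ∑ b, max (φ2 x a b) 0 := by
      rw [← Finset.sum_add_distrib]
      apply Finset.sum_le_sum; intro x _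
      rw [← Finset.sum_add_distrib]
      apply Finset.sum_le_sum; intro a _
      rw [← Finset.sum_add_distrib]
      apply Finset.sum_le_sum; intro b _
      omega
    have k2 : ((∑ x, ∑ a, ∑ b, max (φ1 x a b) 0 : ℤ) : ℝ) ≤
        ∑ i, (N i * m i / 2 + m i * Real.sqrt (3 * N i)) := by
      have h1 : ∀ x a b, max (φ1 x a b) 0 ≤ ∑ i, max (F i x a b) 0 := by
        intro x a b
        apply max_le
        · apply Finset.sum_le_sum; intro i _; exact le_max_left _ _
        · apply Finset.sum_nonneg; intro i _; exact le_max_right _ _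
      have h2 : ∑ x, ∑ a, ∑ b, max (φ1 x a b) 0 ≤ ∑ i, ∑ x, ∑ a, ∑ b, max (F i x a b) 0 := by
        conv_rhs => rw [Finset.sum_comm]
        apply Finset.sum_le_sum; intro x _
        conv_rhs => rw [Finset.sum_comm]
        apply Finset.sum_le_sum; intro a _
        conv_rhs => rw [Finset.sum_comm]
        apply Finset.sum_le_sum; intro b _
        exact h1 x a b
      have h3 : ∀ i, ∑ x, ∑ a, ∑ b, max (F i x a b) 0 =
          ∑ x ∈ X' i, ∑ a, ∑ b, max (F i x a b) 0 := by
        intro i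
        symm
        apply Finset.sum_subset (Finset.subset_univ _)
        intro x _ hx
        apply Finset.sum_eq_zero; intro a _
        apply Finset.sum_eq_zero; intro b _
        have : F i x a b = 0 := by
          by_contra hne
          exact hx (f2 _ _ _ _ hne).1
        rw [this]; rfl
      rw [Finset.sum_congr rfl (fun i _ => h3 i)] at h2
      have h4 : ((∑ x, ∑ a, ∑ b, max (φ1 x a b) 0 : ℤ) : ℝ) ≤
          ((∑ i, ∑ x ∈ X' i, ∑ a, ∑ b, max (F i x a b) 0 : ℤ) : ℝ) := by exact_mod_cast h2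
      refine h4.trans ?_
      rw [Int.cast_sum]
      apply Finset.sum_le_sum; intro i _
      have h5 := f4 i
      rw [← hm, ← hN] at h5
      rw [Int.cast_sum]
      refine le_trans (le_of_eq ?_) h5
      apply Finset.sum_congr rfl; intro x _
      rw [Int.cast_sum]
      apply Finset.sum_congr rfl; intro a _
      rw [Int.cast_sum]
    have k3 : ((∑ x, ∑ a, ∑ b, max (φ1 x a b + φ2 x a b) 0 : ℤ) : ℝ) ≤
        ((∑ x, ∑ a, ∑ b, max (φ1 x a b) 0 : ℤ) : ℝ) +
          ((∑ x, ∑ a, ∑ b, max (φ2 x a b) 0 : ℤ) : ℝ) := by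
      rw [← Int.cast_add]
      exact Int.cast_le.2 k1
    have k4 : 2 * ((∑ x, ∑ a, ∑ b, max (φ2 x a b) 0 : ℤ) : ℝ) ≤
        ((∑ a, ∑ b, |E a b| : ℤ) : ℝ) := by
      have : ((2 * ∑ x, ∑ a, ∑ b, max (φ2 x a b) 0 : ℤ) : ℝ) ≤
        ((∑ a, ∑ b, |E a b| : ℤ) : ℝ) := Int.cast_le.2 c4
      rw [Int.cast_mul] at this
      exact_mod_cast this
    linarith

end Pool.Agent.Helper40.TI
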