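import Mathlib

/-!
Tournaments on a finite vertex set, reversal of directed triangles, and the cost of reversing a
balanced set of arcs.
-/

namespace Pool.Agent.Helper40.TI

open Classical

variable {V : Type*}

/-- A tournament, as a relation: `T u v` says that the arc between `u` and `v` goes from `u` to
`v`. -/
def IsTour (T : V → V → Prop) : Prop :=
  (∀ u, ¬ T u u) ∧ ∀ u v, u ≠ v → (T u v ↔ ¬ T v u)

/-- Reverse all arcs of `T` inside the three-element set `{a, b, c}`. -/
def rev3 (T : V → V → Prop) (a b c : V) : V → V → Prop := fun u v =>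
  if (u = a ∨ u = b ∨ u = c) ∧ (v = a ∨ v = b ∨ v = c) then T v u else T u v

/-- `T'` arises from `T` by reversing the three arcs of a directed 3-cycle of `T`. -/
def Rev (T T' : V → V → Prop) : Prop :=
  ∃ a b c, T a b ∧ T b c ∧ T c a ∧ T' = rev3 T a b c

/-- `T'` is reached from `T` by `k` reversals of directed 3-cycles. -/
inductive Steps : ℕ → (V → V → Prop) → (V → V → Prop) → Prop
  | zero (T : V → V → Prop) : Steps 0 T T
  | succ {k : ℕ} {T T' T'' : V → V → Prop} : Rev T T' → Steps k T' T'' → Steps (k + 1) T T''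

theorem Steps.trans {k l : ℕ} {T T' T'' : V → V → Prop} (h : Steps k T T')
    (h' : Steps l T' T'') : Steps (k + l) T T'' := by
  induction h with
  | zero T => simpa using h'
  | succ hr hs ih =>
      have := Steps.succ hr (ih h')
      convert this using 1
      omega

theorem Steps.single {T T' : V → V → Prop} (h : Rev T T') : Steps 1 T T' :=
  Steps.succ h (Steps.zero _)

theorem IsTour.ne {T : V → V → Prop} (hT : IsTour T) {u v : V} (h : T u v) : u ≠ v := by
  rintro rfl
  exact hT.1 _ h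

theorem IsTour.not_symm {T : V → V → Prop} (hT : IsTour T) {u v : V} (h : T u v) : ¬ T v u :=
  (hT.2 u v (hT.ne h)).1 h

theorem IsTour.rev3 {T : V → V → Prop} (hT : IsTour T) (a b c : V) :
    IsTour (rev3 T a b c) := by
  constructor
  · intro u
    unfold TI.rev3
    split_ifs <;> exact hT.1 u
  · intro u v huv
    unfold TI.rev3
    by_cases h : (u = a ∨ u = b ∨ u = c) ∧ (v = a ∨ v = b ∨ v = c)
    · rw [if_pos h, if_pos ⟨h.2, h.1⟩]
      exact hT.2 v u huv.symm
    · rw [if_neg h, if_neg (fun h' => h ⟨h'.2, h'.1⟩)]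
      exact hT.2 u v huv

/-- Reverse the arcs belonging to `W`. -/
def flip (T : V → V → Prop) (W : Finset (V × V)) : V → V → Prop := fun u v =>
  if (u, v) ∈ W ∨ (v, u) ∈ W then T v u else T u v

theorem IsTour.flip {T : V → V → Prop} (hT : IsTour T) (W : Finset (V × V)) :
    IsTour (flip T W) := by
  constructor
  · intro u
    unfold TI.flip
    split_ifs <;> exact hT.1 u
  · intro u v huv
    unfold TI.flip
    by_cases h : (u, v) ∈ W ∨ (v, u) ∈ W
    · rw [if_pos h, if_pos h.symm]
      exact hT.2 v u huv.symm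
    · rw [if_neg h, if_neg (fun h' => h h'.symm)]
      exact hT.2 u v huv

/-- A set of arcs is balanced when every vertex has as many outgoing as incoming arcs in it. -/
def Bal (W : Finset (V × V)) : Prop :=
  ∀ v, (W.filter (fun e => e.1 = v)).card = (W.filter (fun e => e.2 = v)).card

/-- In a nonempty balanced set of arcs of a tournament there are consecutive arcs whose shortcut
is not in the set. -/
theorem exists_step {T : V → V → Prop} (hT : IsTour T) (W : Finset (V × V))
    (hW : ∀ e ∈ W, T e.1 e.2) (hB : Bal W) (hne : W.Nonempty) :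
    ∃ u v w, (u, v) ∈ W ∧ (v, w) ∈ W ∧ (u, w) ∉ W := by
  by_contra hcon
  push Not at hcon
  -- out-degree
  set d : V → ℕ := fun v => (W.filter (fun e => e.1 = v)).card with hd
  have hex : ∃ v, 0 < d v := by
    obtain ⟨e, he⟩ := hne
    exact ⟨e.1, Finset.card_pos.2 ⟨e, Finset.mem_filter.2 ⟨he, rfl⟩⟩⟩
  have key : ∀ u, 0 < d u → ∃ v, 0 < d v ∧ d v < d u := by
    intro u hu
    obtain ⟨e, he⟩ := Finset.card_pos.1 hu
    obtain ⟨heW, heu⟩ := Finset.mem_filter.1 he
    obtain ⟨x, v⟩ := e
    simp only at heu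
    subst heu
    have hv : 0 < d v := by
      have h1 : 0 < (W.filter (fun e => e.2 = v)).card :=
        Finset.card_pos.2 ⟨(x, v), Finset.mem_filter.2 ⟨heW, rfl⟩⟩
      rw [← hB v] at h1
      exact h1
    refine ⟨v, hv, ?_⟩
    -- injection (v,w) ↦ (x,w) missing (x,v)
    have himg : ((W.filter (fun e => e.1 = v)).image (fun e => (x, e.2))) ⊂
        W.filter (fun e => e.1 = x) := by
      rw [Finset.ssubset_iff_subset_ne]
      constructor
      · intro f hf
        obtain ⟨g, hg, rfl⟩ := Finset.mem_image.1 hf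
        obtain ⟨hgW, hgv⟩ := Finset.mem_filter.1 hg
        refine Finset.mem_filter.2 ⟨?_, rfl⟩
        obtain ⟨g1, g2⟩ := g
        simp only at hgv ⊢
        subst hgv
        exact hcon _ _ _ heW hgW
      · intro heq
        have hmem : (x, v) ∈ W.filter (fun e => e.1 = x) := Finset.mem_filter.2 ⟨heW, rfl⟩
        rw [← heq] at hmem
        obtain ⟨g, hg, hgx⟩ := Finset.mem_image.1 hmem
        obtain ⟨hgW, hgv⟩ := Finset.mem_filter.1 hg
        obtain ⟨g1, g2⟩ := g
        simp only [Prod.mk.injEq, true_and] at hgx hgv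
        subst hgx
        subst hgv
        exact hT.1 _ (hW _ hgW)
    have hcard := Finset.card_lt_card himg
    rw [Finset.card_image_of_injOn] at hcard
    · exact hcard
    · intro f hf g hg hfg
      obtain ⟨_, hf1⟩ := Finset.mem_filter.1 (Finset.mem_coe.1 hf)
      obtain ⟨_, hg1⟩ := Finset.mem_filter.1 (Finset.mem_coe.1 hg)
      simp only [Prod.mk.injEq, true_and] at hfg
      exact Prod.ext (hf1.trans hg1.symm) hfg
  -- infinite descent
  obtain ⟨v0, hv0⟩ := hex
  have : ∀ N : ℕ, ∀ v, d v = N → 0 < d v → False := by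
    intro N
    induction N using Nat.strong_induction_on with
    | _ N ih =>
        intro v hv hpos
        obtain ⟨w, hw, hlt⟩ := key v hpos
        exact ih (d w) (hv ▸ hlt) w rfl hw
  exact this _ v0 rfl hv0

/-- Reverse the pairs satisfying `P`. -/
def flipP (T : V → V → Prop) (P : V → V → Prop) : V → V → Prop := fun x y =>
  if P x y then T y x else T x y

theorem flipP_congr {T : V → V → Prop} {P Q : V → V → Prop}
    (h : ∀ x y, x ≠ y → (P x y ↔ Q x y)) : flipP T P = flipP T Q := by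
  funext x y
  unfold flipP
  by_cases hxy : x = y
  · subst hxy
    split_ifs <;> rfl
  · simp only [h x y hxy]

theorem flipP_flipP {T : V → V → Prop} {P Q : V → V → Prop} (hP : ∀ x y, P x y ↔ P y x) :
    flipP (flipP T P) Q = flipP T (fun x y => (P x y ∧ ¬ Q x y) ∨ (¬ P x y ∧ Q x y)) := by
  funext x y
  unfold flipP
  by_cases h1 : P x y
  · have h1' : P y x := (hP x y).1 h1
    by_cases h2 : Q x y <;> simp [h1, h1', h2]
  · have h1' : ¬ P y x := fun h => h1 ((hP x y).2 h)
    by_cases h2 : Q x y <;> simp [h1, h1', h2]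

theorem rev3_eq (T : V → V → Prop) (a b c : V) :
    rev3 T a b c = flipP T (fun u v => (u = a ∨ u = b ∨ u = c) ∧ (v = a ∨ v = b ∨ v = c)) := by
  funext x y
  unfold rev3 flipP
  split_ifs <;> rfl

theorem flip_eq (T : V → V → Prop) (W : Finset (V × V)) :
    flip T W = flipP T (fun u v => (u, v) ∈ W ∨ (v, u) ∈ W) := by
  funext x y
  unfold flip flipP
  split_ifs <;> rfl

theorem card_filter_insert' {α : Type*} [DecidableEq α] (p : α → Prop) [DecidablePred p]
    {a : α} {S : Finset α} (ha : a ∉ S) :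
    ((insert a S).filter p).card = (S.filter p).card + (if p a then 1 else 0) := by
  rw [Finset.filter_insert]
  split_ifs with h
  · rw [Finset.card_insert_of_notMem]
    intro h'
    exact ha (Finset.mem_filter.1 h').1
  · rfl

theorem xor_aux (P Q : Prop) : (P ∧ ¬ Q ∨ ¬ P ∧ Q) ↔ (Q ∧ ¬ P ∨ ¬ Q ∧ P) := by tauto

theorem core_tri {u v w : V} (nuv : u ≠ v) (nvw : v ≠ w) (nuw : u ≠ w) (S : V → V → Prop)
    (g1 : ¬ S u v) (g2 : ¬ S v w) (g3 : ¬ S v u) (g4 : ¬ S w v) (g5 : ¬ S u w) (g6 : ¬ S w u)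
    {x y : V} (hxy : x ≠ y) :
    (((x = u ∨ x = v ∨ x = w) ∧ (y = u ∨ y = v ∨ y = w)) ∧ ¬ (S x y ∨ S y x) ∨
      ¬ ((x = u ∨ x = v ∨ x = w) ∧ (y = u ∨ y = v ∨ y = w)) ∧ (S x y ∨ S y x)) ↔
    (((x = u ∧ y = v) ∨ (x = v ∧ y = w) ∨ (x = w ∧ y = u) ∨ S x y) ∨
      ((y = u ∧ x = v) ∨ (y = v ∧ x = w) ∨ (y = w ∧ x = u) ∨ S y x)) := by
  have nvu := nuv.symm
  have nwv := nvw.symm
  have nwu := nuw.symm
  by_cases hx : x = u ∨ x = v ∨ x = w
  · by_cases hy : y = u ∨ y = v ∨ y = w
    · rcases hx with rfl | rfl | rfl <;> rcases hy with rfl | rfl | rfl <;>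
        first | exact absurd rfl hxy | simp [*]
    · have a1 : y ≠ u := fun h => hy (Or.inl h)
      have a2 : y ≠ v := fun h => hy (Or.inr (Or.inl h))
      have a3 : y ≠ w := fun h => hy (Or.inr (Or.inr h))
      simp [a1, a2, a3]
  · have a1 : x ≠ u := fun h => hx (Or.inl h)
    have a2 : x ≠ v := fun h => hx (Or.inr (Or.inl h))
    have a3 : x ≠ w := fun h => hx (Or.inr (Or.inr h))
    simp [a1, a2, a3]

theorem core_path {u v w : V} (nuv : u ≠ v) (nvw : v ≠ w) (nuw : u ≠ w) (S : V → V → Prop)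
    (g1 : ¬ S u v) (g2 : ¬ S v w) (g3 : ¬ S v u) (g4 : ¬ S w v) (g5 : ¬ S u w) (g6 : ¬ S w u)
    {x y : V} (hxy : x ≠ y) :
    (((x = u ∨ x = v ∨ x = w) ∧ (y = u ∨ y = v ∨ y = w)) ∧
        ¬ (((x = u ∧ y = w) ∨ S x y) ∨ ((y = u ∧ x = w) ∨ S y x)) ∨
      ¬ ((x = u ∨ x = v ∨ x = w) ∧ (y = u ∨ y = v ∨ y = w)) ∧
        (((x = u ∧ y = w) ∨ S x y) ∨ ((y = u ∧ x = w) ∨ S y x))) ↔
    (((x = u ∧ y = v) ∨ (x = v ∧ y = w) ∨ S x y) ∨
      ((y = u ∧ x = v) ∨ (y = v ∧ x = w) ∨ S y x)) := by
  have nvu := nuv.symm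
  have nwv := nvw.symm
  have nwu := nuw.symm
  by_cases hx : x = u ∨ x = v ∨ x = w
  · by_cases hy : y = u ∨ y = v ∨ y = w
    · rcases hx with rfl | rfl | rfl <;> rcases hy with rfl | rfl | rfl <;>
        first | exact absurd rfl hxy | simp [*]
    · have a1 : y ≠ u := fun h => hy (Or.inl h)
      have a2 : y ≠ v := fun h => hy (Or.inr (Or.inl h))
      have a3 : y ≠ w := fun h => hy (Or.inr (Or.inr h))
      simp [a1, a2, a3]
  · have a1 : x ≠ u := fun h => hx (Or.inl h)
    have a2 : x ≠ v := fun h => hx (Or.inr (Or.inl h))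
    have a3 : x ≠ w := fun h => hx (Or.inr (Or.inr h))
    simp [a1, a2, a3]

theorem rev3_keep {T : V → V → Prop} (hT : IsTour T) {u v w : V} {W : Finset (V × V)}
    (g1 : (u, v) ∉ W) (g2 : (v, w) ∉ W) (g3 : (v, u) ∉ W) (g4 : (w, v) ∉ W) (g5 : (u, w) ∉ W)
    (g6 : (w, u) ∉ W) (hW : ∀ e ∈ W, T e.1 e.2) : ∀ e ∈ W, rev3 T u v w e.1 e.2 := by
  intro e he
  have h1 := hW _ he
  unfold rev3
  rw [if_neg]
  · exact h1
  · rintro ⟨hx, hy⟩
    obtain ⟨x, y⟩ := e
    simp only at hx hy h1
    have hxy := hT.ne h1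
    rcases hx with rfl | rfl | rfl <;> rcases hy with rfl | rfl | rfl <;>
      first | exact absurd rfl hxy | contradiction

/-- Reversing a nonempty balanced set `W` of arcs of a tournament costs at most `|W| - 2`
reversals of directed 3-cycles. -/
theorem steps_flip : ∀ N : ℕ, ∀ (T : V → V → Prop) (W : Finset (V × V)), W.card = N →
    IsTour T → (∀ e ∈ W, T e.1 e.2) → Bal W → W.Nonempty →
    ∃ k, k + 2 ≤ W.card ∧ Steps k T (flip T W) := by
  intro N
  induction N using Nat.strong_induction_on with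
  | _ N ih =>
  intro T W hN hT hW hB hne
  obtain ⟨u, v, w, huv, hvw, huw⟩ := exists_step hT W hW hB hne
  have Tuv : T u v := hW _ huv
  have Tvw : T v w := hW _ hvw
  have nuv : u ≠ v := hT.ne Tuv
  have nvw : v ≠ w := hT.ne Tvw
  have nuw : u ≠ w := by
    rintro rfl
    exact hT.not_symm Tuv Tvw
  have hvu : (v, u) ∉ W := fun h => hT.not_symm Tuv (hW _ h)
  have hwv : (w, v) ∉ W := fun h => hT.not_symm Tvw (hW _ h)
  set W0 := (W.erase (u, v)).erase (v, w) with hW0
  have e1 : (u, v) ∉ W0 := by simp [hW0]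
  have e2 : (v, w) ∉ W0 := by simp [hW0]
  have hWi : W = insert (u, v) (insert (v, w) W0) := by
    rw [hW0, Finset.insert_erase, Finset.insert_erase huv]
    exact Finset.mem_erase.2 ⟨by simp [nuv.symm], hvw⟩
  have e1' : (u, v) ∉ insert (v, w) W0 := by simp [e1, nuv]
  have hsub : ∀ e ∈ W0, e ∈ W := fun e he => Finset.mem_of_mem_erase (Finset.mem_of_mem_erase he)
  have e3 : (v, u) ∉ W0 := fun h => hvu (hsub _ h)
  have e4 : (w, v) ∉ W0 := fun h => hwv (hsub _ h)
  have e5 : (u, w) ∉ W0 := fun h => huw (hsub _ h)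
  have hcard : W.card = W0.card + 2 := by
    rw [hWi, Finset.card_insert_of_notMem e1', Finset.card_insert_of_notMem e2]
  have hBal0 : ∀ x, (W0.filter (fun e => e.1 = x)).card + (if u = x then 1 else 0) =
      (W0.filter (fun e => e.2 = x)).card + (if w = x then 1 else 0) := by
    intro x
    have := hB x
    rw [hWi, card_filter_insert' _ e1', card_filter_insert' _ e1', card_filter_insert' _ e2,
      card_filter_insert' _ e2] at this
    simp only at this
    omega
  -- the modified set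
  have hBalI : Bal (insert (u, w) W0) := by
    intro x
    rw [card_filter_insert' _ e5, card_filter_insert' _ e5]
    exact hBal0 x
  have hcardI : (insert (u, w) W0).card = W0.card + 1 := Finset.card_insert_of_notMem e5
  by_cases Twu : T w u
  · by_cases hwu : (w, u) ∈ W
    · -- remove a directed triangle contained in W
      set W1 := W0.erase (w, u) with hW1
      have hwu0 : (w, u) ∈ W0 := by
        simp [hW0, hwu, nuv, nvw.symm, nuw.symm]
      have f6 : (w, u) ∉ W1 := by simp [hW1]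
      have hW0i : W0 = insert (w, u) W1 := by rw [hW1, Finset.insert_erase hwu0]
      have hsub1 : ∀ e ∈ W1, e ∈ W0 := fun e he => Finset.mem_of_mem_erase he
      have hBal1 : Bal W1 := by
        intro x
        have := hBal0 x
        rw [hW0i, card_filter_insert' _ f6, card_filter_insert' _ f6] at this
        simp only at this
        omega
      have hcard1 : W0.card = W1.card + 1 := by
        rw [hW0i, Finset.card_insert_of_notMem f6]
      have hrev : Rev T (rev3 T u v w) := ⟨u, v, w, Tuv, Tvw, Twu, rfl⟩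
      have hT1 : IsTour (rev3 T u v w) := hT.rev3 u v w
      have g1 : (u, v) ∉ W1 := fun h => e1 (hsub1 _ h)
      have g2 : (v, w) ∉ W1 := fun h => e2 (hsub1 _ h)
      have g3 : (v, u) ∉ W1 := fun h => e3 (hsub1 _ h)
      have g4 : (w, v) ∉ W1 := fun h => e4 (hsub1 _ h)
      have g5 : (u, w) ∉ W1 := fun h => e5 (hsub1 _ h)
      have hflip : flip (rev3 T u v w) W1 = flip T W := by
        rw [flip_eq, rev3_eq, flipP_flipP (fun x y => And.comm), flip_eq]
        apply flipP_congr
        intro x y hxy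
        have m1 : (x, y) ∈ W ↔ (x = u ∧ y = v) ∨ (x = v ∧ y = w) ∨ (x = w ∧ y = u) ∨
            (x, y) ∈ W1 := by
          rw [hWi, hW0i]; simp [Prod.ext_iff]
        have m2 : (y, x) ∈ W ↔ (y = u ∧ x = v) ∨ (y = v ∧ x = w) ∨ (y = w ∧ x = u) ∨
            (y, x) ∈ W1 := by
          rw [hWi, hW0i]; simp [Prod.ext_iff]
        rw [m1, m2]
        exact core_tri nuv nvw nuw (fun x y => (x, y) ∈ W1) g1 g2 g3 g4 g5 f6 hxy
      by_cases hne1 : W1.Nonempty
      · have hW1T : ∀ e ∈ W1, rev3 T u v w e.1 e.2 :=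
          rev3_keep hT g1 g2 g3 g4 g5 f6 (fun e he => hW _ (hsub _ (hsub1 _ he)))
        obtain ⟨k, hk, hst⟩ := ih W1.card (by omega) (rev3 T u v w) W1 rfl hT1 hW1T hBal1 hne1
        refine ⟨k + 1, by omega, ?_⟩
        rw [hflip] at hst
        exact Steps.succ hrev hst
      · rw [Finset.not_nonempty_iff_eq_empty] at hne1
        refine ⟨1, by omega, ?_⟩
        have : flip (rev3 T u v w) W1 = rev3 T u v w := by
          rw [hne1]; funext x y; simp [flip]
        rw [this] at hflip
        rw [← hflip]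
        exact Steps.single hrev
    · -- replace `u → v → w` by `u → w` after reversing the triangle
      have hwu0 : (w, u) ∉ W0 := fun h => hwu (hsub _ h)
      have hrev : Rev T (rev3 T u v w) := ⟨u, v, w, Tuv, Tvw, Twu, rfl⟩
      have hT1 : IsTour (rev3 T u v w) := hT.rev3 u v w
      have hW1T : ∀ e ∈ insert (u, w) W0, rev3 T u v w e.1 e.2 := by
        intro e he
        rcases Finset.mem_insert.1 he with rfl | he
        · unfold rev3
          rw [if_pos (by simp)]
          exact Twu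
        · exact rev3_keep hT e1 e2 e3 e4 e5 hwu0 (fun e he => hW _ (hsub _ he)) e he
      have hflip : flip (rev3 T u v w) (insert (u, w) W0) = flip T W := by
        rw [flip_eq, rev3_eq, flipP_flipP (fun x y => And.comm), flip_eq]
        apply flipP_congr
        intro x y hxy
        have m1 : (x, y) ∈ W ↔ (x = u ∧ y = v) ∨ (x = v ∧ y = w) ∨ (x, y) ∈ W0 := by
          rw [hWi]; simp [Prod.ext_iff]
        have m2 : (y, x) ∈ W ↔ (y = u ∧ x = v) ∨ (y = v ∧ x = w) ∨ (y, x) ∈ W0 := by
          rw [hWi]; simp [Prod.ext_iff]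
        have m3 : (x, y) ∈ insert (u, w) W0 ↔ (x = u ∧ y = w) ∨ (x, y) ∈ W0 := by
          simp [Prod.ext_iff]
        have m4 : (y, x) ∈ insert (u, w) W0 ↔ (y = u ∧ x = w) ∨ (y, x) ∈ W0 := by
          simp [Prod.ext_iff]
        rw [m1, m2, m3, m4]
        exact core_path nuv nvw nuw (fun x y => (x, y) ∈ W0) e1 e2 e3 e4 e5 hwu0 hxy
      obtain ⟨k, hk, hst⟩ := ih (insert (u, w) W0).card (by omega) (rev3 T u v w)
        (insert (u, w) W0) rfl hT1 hW1T hBalI ⟨_, Finset.mem_insert_self _ _⟩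
      refine ⟨k + 1, by omega, ?_⟩
      rw [hflip] at hst
      exact Steps.succ hrev hst
  · have Tuw : T u w := by
      by_contra h
      exact Twu ((hT.2 w u nuw.symm).2 h)
    have hwu0 : (w, u) ∉ W0 := fun h => Twu (hW _ (hsub _ h))
    have hW1T : ∀ e ∈ insert (u, w) W0, T e.1 e.2 := by
      intro e he
      rcases Finset.mem_insert.1 he with rfl | he
      · exact Tuw
      · exact hW _ (hsub _ he)
    obtain ⟨k, hk, hst⟩ := ih (insert (u, w) W0).card (by omega) T
      (insert (u, w) W0) rfl hT hW1T hBalI ⟨_, Finset.mem_insert_self _ _⟩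
    set T1 := flip T (insert (u, w) W0) with hT1
    have t1 : T1 u v := by
      rw [hT1]; unfold flip
      rw [if_neg]
      · exact Tuv
      · simp [e1, e3, nvw, nuv, nvw.symm, nuv.symm, nuw]
    have t2 : T1 v w := by
      rw [hT1]; unfold flip
      rw [if_neg]
      · exact Tvw
      · simp [e2, e4, nvw, nuv, nvw.symm, nuv.symm, nuw, nuw.symm]
    have t3 : T1 w u := by
      rw [hT1]; unfold flip
      rw [if_pos]
      · exact Tuw
      · simp
    have hrev : Rev T1 (rev3 T1 u v w) := ⟨u, v, w, t1, t2, t3, rfl⟩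
    have hflip : rev3 T1 u v w = flip T W := by
      rw [hT1, rev3_eq, flip_eq, flip_eq, flipP_flipP (fun x y => Or.comm)]
      apply flipP_congr
      intro x y hxy
      have m1 : (x, y) ∈ W ↔ (x = u ∧ y = v) ∨ (x = v ∧ y = w) ∨ (x, y) ∈ W0 := by
        rw [hWi]; simp [Prod.ext_iff]
      have m2 : (y, x) ∈ W ↔ (y = u ∧ x = v) ∨ (y = v ∧ x = w) ∨ (y, x) ∈ W0 := by
        rw [hWi]; simp [Prod.ext_iff]
      have m3 : (x, y) ∈ insert (u, w) W0 ↔ (x = u ∧ y = w) ∨ (x, y) ∈ W0 := by
        simp [Prod.ext_iff]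
      have m4 : (y, x) ∈ insert (u, w) W0 ↔ (y = u ∧ x = w) ∨ (y, x) ∈ W0 := by
        simp [Prod.ext_iff]
      rw [m1, m2, m3, m4]
      have := core_path nuv nvw nuw (fun x y => (x, y) ∈ W0) e1 e2 e3 e4 e5 hwu0 hxy
      rw [← this]
      exact xor_aux _ _
    refine ⟨k + 1, by omega, ?_⟩
    rw [← hflip]
    exact hst.trans (Steps.single hrev)

end Pool.Agent.Helper40.TI
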