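import Pool.Agent.Helper40.TI.Basic

/-!
Integral 2-chains whose boundary is the difference of two tournaments give short sequences of
reversals of directed 3-cycles.
-/

namespace Pool.Agent.Helper40.TI

open Classical Finset

variable {V : Type*} [Fintype V]

/-- The indicator of one arc. -/
noncomputable def del (u v : V) : V × V → ℕ := fun p => if p.1 = u ∧ p.2 = v then 1 else 0

def BalF (W : V × V → ℕ) : Prop := ∀ v, ∑ u, W (v, u) = ∑ u, W (u, v)

def Good (W : V × V → ℕ) : Prop := W ≠ 0 ∧ BalF W ∧ ∀ v, W (v, v) = 0

theorem sum_del_out (u v a : V) : ∑ x, del u v (a, x) = if a = u then 1 else 0 := by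
  unfold del
  by_cases h : a = u <;> simp [h]

theorem sum_del_in (u v a : V) : ∑ x, del u v (x, a) = if a = v then 1 else 0 := by
  unfold del
  by_cases h : a = v <;> simp [h]

theorem BalF.add {W W' : V × V → ℕ} (h : BalF W) (h' : BalF W') : BalF (W + W') := by
  intro v
  simp only [Pi.add_apply, Finset.sum_add_distrib]
  rw [h v, h' v]

theorem balF_pair {u v : V} {W : V × V → ℕ} (h : BalF (W + (del u v + del v u))) : BalF W := by
  intro a
  have := h a
  simp only [Pi.add_apply, Finset.sum_add_distrib, sum_del_out, sum_del_in] at this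
  omega

def Decomp (A : V × V → ℕ) (k : ℕ) : Prop :=
  ∃ M : Multiset (V × V → ℕ), (∀ W ∈ M, Good W) ∧ M.sum = A ∧ M.card = k

theorem exists_mem_pos {M : Multiset (V × V → ℕ)} {p : V × V} (h : 0 < M.sum p) :
    ∃ W ∈ M, 0 < W p := by
  induction M using Multiset.induction_on with
  | empty => simp at h
  | cons W M ih =>
      rw [Multiset.sum_cons, Pi.add_apply] at h
      by_cases hW : 0 < W p
      · exact ⟨W, Multiset.mem_cons_self _ _, hW⟩
      · obtain ⟨W', hW', hp⟩ := ih (by omega)
        exact ⟨W', Multiset.mem_cons_of_mem hW', hp⟩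

theorem del_le {u v : V} {W : V × V → ℕ} (h : 0 < W (u, v)) : del u v ≤ W := by
  intro p
  unfold del
  split_ifs with hp
  · obtain ⟨a, b⟩ := p
    simp only at hp
    obtain ⟨rfl, rfl⟩ := hp
    exact h
  · exact Nat.zero_le _

theorem Decomp.cancel {A : V × V → ℕ} {k : ℕ} {u v : V} (huv : u ≠ v)
    (h : Decomp (A + (del u v + del v u)) k) : ∃ k', k ≤ k' + 1 ∧ Decomp A k' := by
  obtain ⟨M, hM, hsum, hcard⟩ := h
  have h1 : 0 < M.sum (u, v) := by
    rw [hsum]; simp [del]
  obtain ⟨W1, hW1, hp1⟩ := exists_mem_pos h1
  obtain ⟨M1, rfl⟩ := Multiset.exists_cons_of_mem hW1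
  rw [Multiset.sum_cons] at hsum
  rw [Multiset.card_cons] at hcard
  have g1 := hM W1 (Multiset.mem_cons_self _ _)
  by_cases hp2 : 0 < W1 (v, u)
  · have hle : del u v + del v u ≤ W1 := by
      intro p
      obtain ⟨a, b⟩ := p
      simp only [Pi.add_apply, del]
      by_cases c1 : a = u ∧ b = v
      · obtain ⟨rfl, rfl⟩ := c1
        simp [huv]
        omega
      · by_cases c2 : a = v ∧ b = u
        · obtain ⟨rfl, rfl⟩ := c2
          simp [c1]
          omega
        · simp [c1, c2]
    obtain ⟨W', hW'⟩ := exists_add_of_le hle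
    rw [add_comm] at hW'
    have hs : W' + M1.sum = A := by
      have : (W' + M1.sum) + (del u v + del v u) = A + (del u v + del v u) := by
        rw [← hsum, hW']; abel
      exact add_right_cancel this
    by_cases h0 : W' = 0
    · refine ⟨M1.card, by omega, M1, fun W hW => hM W (Multiset.mem_cons_of_mem hW), ?_, rfl⟩
      rw [← hs, h0, zero_add]
    · refine ⟨M1.card + 1, by omega, W' ::ₘ M1, ?_, ?_, by simp⟩
      · intro W hW
        rcases Multiset.mem_cons.1 hW with rfl | hW
        · refine ⟨h0, balF_pair (hW' ▸ g1.2.1), ?_⟩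
          intro x
          have := g1.2.2 x
          rw [hW'] at this
          simp only [Pi.add_apply] at this
          omega
        · exact hM W (Multiset.mem_cons_of_mem hW)
      · rw [Multiset.sum_cons, hs]
  · have h2 : 0 < M1.sum (v, u) := by
      have := congrFun hsum (v, u)
      simp only [Pi.add_apply, del] at this
      simp at this
      omega
    obtain ⟨W2, hW2, hp2'⟩ := exists_mem_pos h2
    obtain ⟨M2, rfl⟩ := Multiset.exists_cons_of_mem hW2
    rw [Multiset.sum_cons] at hsum
    rw [Multiset.card_cons] at hcard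
    have g2 := hM W2 (Multiset.mem_cons_of_mem (Multiset.mem_cons_self _ _))
    obtain ⟨W1', hW1'⟩ := exists_add_of_le (del_le hp1)
    obtain ⟨W2', hW2'⟩ := exists_add_of_le (del_le hp2')
    refine ⟨M2.card + 1, by omega, (W1' + W2') ::ₘ M2, ?_, ?_, by simp⟩
    · intro W hW
      rcases Multiset.mem_cons.1 hW with rfl | hW
      · refine ⟨?_, ?_, ?_⟩
        · intro h0
          have h00 : W1' = 0 := by
            funext p
            have := congrFun h0 p
            simp only [Pi.add_apply, Pi.zero_apply] at this ⊢
            omega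
          rw [h00, add_zero] at hW1'
          have := g1.2.1 u
          rw [hW1', sum_del_out, sum_del_in] at this
          simp [huv] at this
        · apply balF_pair (u := u) (v := v)
          have : W1' + W2' + (del u v + del v u) = W1 + W2 := by
            rw [hW1', hW2']; abel
          rw [this]
          exact g1.2.1.add g2.2.1
        · intro x
          have a1 := g1.2.2 x
          have a2 := g2.2.2 x
          rw [hW1'] at a1
          rw [hW2'] at a2
          simp only [Pi.add_apply] at a1 a2 ⊢
          omega
      · exact hM W (Multiset.mem_cons_of_mem (Multiset.mem_cons_of_mem hW))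
    · rw [Multiset.sum_cons]
      have : (W1' + W2' + M2.sum) + (del u v + del v u) = A + (del u v + del v u) := by
        rw [← hsum, hW1', hW2']; abel
      exact add_right_cancel this

theorem Decomp.diag {A : V × V → ℕ} {k : ℕ} (h : Decomp A k) (v : V) : A (v, v) = 0 := by
  obtain ⟨M, hM, rfl, -⟩ := h
  by_contra hne
  obtain ⟨W, hW, hp⟩ := exists_mem_pos (Nat.pos_of_ne_zero hne)
  have := (hM W hW).2.2 v
  omega

theorem Decomp.reduce : ∀ N : ℕ, ∀ (A : V × V → ℕ) (k : ℕ), ∑ p, A p = N → Decomp A k →
    ∃ A' k', Decomp A' k' ∧ ∑ p, A' p + 2 * k ≤ ∑ p, A p + 2 * k' ∧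
      (∀ u v, (A' (u, v) : ℤ) - A' (v, u) = A (u, v) - A (v, u)) ∧
      ∀ u v, A' (u, v) = 0 ∨ A' (v, u) = 0 := by
  intro N
  induction N using Nat.strong_induction_on with
  | _ N ih =>
  intro A k hN hA
  by_cases h : ∀ u v, A (u, v) = 0 ∨ A (v, u) = 0
  · exact ⟨A, k, hA, le_rfl, fun u v => rfl, h⟩
  · push Not at h
    obtain ⟨u, v, h1, h2⟩ := h
    have huv : u ≠ v := by
      rintro rfl
      exact h1 (hA.diag u)
    have hle : del u v + del v u ≤ A := by
      intro p
      obtain ⟨a, b⟩ := p
      simp only [Pi.add_apply, del]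
      by_cases c1 : a = u ∧ b = v
      · obtain ⟨rfl, rfl⟩ := c1
        simp [huv]
        omega
      · by_cases c2 : a = v ∧ b = u
        · obtain ⟨rfl, rfl⟩ := c2
          simp [c1]
          omega
        · simp [c1, c2]
    obtain ⟨A1, hA1⟩ := exists_add_of_le hle
    rw [add_comm] at hA1
    have hA' := hA
    rw [hA1] at hA'
    obtain ⟨k1, hk1, hD⟩ := hA'.cancel huv
    have htot : ∑ p, A p = ∑ p, A1 p + 2 := by
      rw [hA1]
      simp only [Pi.add_apply, Finset.sum_add_distrib, Fintype.sum_prod_type, sum_del_out]
      simp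
    obtain ⟨A', k', hD', hle', hnet, hno⟩ := ih (∑ p, A1 p) (by omega) A1 k1 rfl hD
    refine ⟨A', k', hD', by omega, ?_, hno⟩
    intro x y
    rw [hnet x y, hA1]
    simp only [Pi.add_apply, del]
    push_cast
    by_cases c1 : x = u ∧ y = v <;> by_cases c2 : x = v ∧ y = u <;>
      simp only [c1, c2, and_comm, if_true, if_false, and_self] <;> ring_nf

/-- Reverse the arcs whose multiplicity in `A` is positive. -/
noncomputable def flipF (T : V → V → Prop) (A : V × V → ℕ) : V → V → Prop :=
  flipP T (fun u v => 0 < A (u, v) ∨ 0 < A (v, u))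

theorem steps_multiset (M : Multiset (V × V → ℕ)) : ∀ T : V → V → Prop, IsTour T →
    (∀ W ∈ M, Good W) → (∀ p, M.sum p ≤ 1) → (∀ u v, 0 < M.sum (u, v) → T u v) →
    ∃ k, k + 2 * M.card ≤ ∑ p, M.sum p ∧ Steps k T (flipF T M.sum) := by
  induction M using Multiset.induction_on with
  | empty =>
      intro T hT _ _ _
      refine ⟨0, by simp, ?_⟩
      have : flipF T (Multiset.sum (0 : Multiset (V × V → ℕ))) = T := by
        funext u v
        simp [flipF, flipP]
      rw [this]
      exact Steps.zero T
  | cons W M ih =>
      intro T hT hG h1 hsub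
      have gW := hG W (Multiset.mem_cons_self _ _)
      have hsum : ∀ p, (W ::ₘ M).sum p = W p + M.sum p := by
        intro p; rw [Multiset.sum_cons]; rfl
      -- the arc set of W
      set S : Finset (V × V) := Finset.univ.filter (fun p => 0 < W p) with hS
      have hWp : ∀ p, W p = if p ∈ S then 1 else 0 := by
        intro p
        have := h1 p
        rw [hsum] at this
        by_cases hp : 0 < W p
        · rw [if_pos (by simp [hS, hp])]
          omega
        · rw [if_neg (by simp [hS]; omega)]
          omega
      have hST : ∀ e ∈ S, T e.1 e.2 := by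
        intro e he
        have h3 : 0 < W e := (Finset.mem_filter.1 he).2
        obtain ⟨e1, e2⟩ := e
        apply hsub e1 e2
        rw [hsum]
        omega
      have hBal : Bal S := by
        intro v
        have h2 := gW.2.1 v
        have e1 : ∑ u, W (v, u) = (S.filter (fun e => e.1 = v)).card := by
          rw [Finset.card_eq_sum_ones, Finset.sum_filter]
          have : ∑ a ∈ S, (if a.1 = v then 1 else 0) = ∑ a : V × V,
              (if a ∈ S then (if a.1 = v then 1 else 0) else 0) := by
            rw [← Finset.sum_filter]; simp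
          rw [this, Fintype.sum_prod_type]
          symm
          rw [Finset.sum_eq_single v]
          · apply Finset.sum_congr rfl
            intro u _
            rw [hWp]
            simp
          · intro b _ hb
            apply Finset.sum_eq_zero
            intro u _
            simp [hb]
          · simp
        have e2 : ∑ u, W (u, v) = (S.filter (fun e => e.2 = v)).card := by
          rw [Finset.card_eq_sum_ones, Finset.sum_filter]
          have : ∑ a ∈ S, (if a.2 = v then 1 else 0) = ∑ a : V × V,
              (if a ∈ S then (if a.2 = v then 1 else 0) else 0) := by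
            rw [← Finset.sum_filter]; simp
          rw [this, Fintype.sum_prod_type]
          apply Finset.sum_congr rfl
          intro u _
          symm
          rw [Finset.sum_eq_single v]
          · rw [hWp]; simp
          · intro b _ hb
            simp [hb]
          · simp
        rw [← e1, ← e2, h2]
      have hne : S.Nonempty := by
        by_contra hcon
        rw [Finset.not_nonempty_iff_eq_empty] at hcon
        apply gW.1
        funext p
        rw [hWp p, hcon]
        simp
      obtain ⟨k1, hk1, hst1⟩ := steps_flip S.card T S rfl hT hST hBal hne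
      have hT1 : IsTour (flip T S) := hT.flip S
      have hM1 : ∀ p, M.sum p ≤ 1 := by
        intro p
        have := h1 p
        rw [hsum] at this
        omega
      have hsub1 : ∀ u v, 0 < M.sum (u, v) → (flip T S) u v := by
        intro u v huv
        have hT' : T u v := by
          apply hsub
          rw [hsum]; omega
        unfold flip
        rw [if_neg]
        · exact hT'
        · rintro (h | h)
          · have := h1 (u, v)
            rw [hsum] at this
            have h3 : 0 < W (u, v) := (Finset.mem_filter.1 h).2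
            omega
          · exact hT.not_symm hT' (hST _ h)
      obtain ⟨k2, hk2, hst2⟩ := ih (flip T S) hT1
        (fun W' hW' => hG W' (Multiset.mem_cons_of_mem hW')) hM1 hsub1
      refine ⟨k1 + k2, ?_, ?_⟩
      · have e3 : ∑ p, (W ::ₘ M).sum p = S.card + ∑ p, M.sum p := by
          simp only [hsum]
          rw [Finset.sum_add_distrib]
          congr 1
          simp only [hWp]
          simp
        rw [e3, Multiset.card_cons]
        omega
      · have : flipF (flip T S) M.sum = flipF T (W ::ₘ M).sum := by
          unfold flipF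
          rw [flip_eq, flipP_flipP (fun x y => Or.comm)]
          apply flipP_congr
          intro x y hxy
          have m1 : ∀ x y, (x, y) ∈ S ↔ 0 < W (x, y) := by
            intro x y; simp [hS]
          rw [m1, m1, hsum, hsum]
          have k1 := h1 (x, y)
          have k2 := h1 (y, x)
          rw [hsum] at k1 k2
          have c1 : ¬ (0 < W (x, y) ∧ 0 < M.sum (y, x)) := by
            rintro ⟨a, b⟩
            have t1 : T x y := hsub x y (by rw [hsum]; omega)
            have t2 : T y x := hsub y x (by rw [hsum]; omega)
            exact hT.not_symm t1 t2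
          have c2 : ¬ (0 < W (y, x) ∧ 0 < M.sum (x, y)) := by
            rintro ⟨a, b⟩
            have t1 : T x y := hsub x y (by rw [hsum]; omega)
            have t2 : T y x := hsub y x (by rw [hsum]; omega)
            exact hT.not_symm t1 t2
          omega
        rw [← this]
        exact hst1.trans hst2

/-- The boundary of an integral 2-chain; `X a b c` is the coefficient of the oriented triangle
`a → b → c → a`. -/
def bd (X : V → V → V → ℤ) (u v : V) : ℤ :=
  ∑ w, (X u v w + X w u v + X v w u) - ∑ w, (X v u w + X w v u + X u w v)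

noncomputable def tri (a b c : V) : V × V → ℕ := del a b + del b c + del c a

theorem good_tri {a b c : V} (hab : a ≠ b) (hbc : b ≠ c) (hca : c ≠ a) : Good (tri a b c) := by
  refine ⟨?_, ?_, ?_⟩
  · intro h
    have := congrFun h (a, b)
    simp [tri, del] at this
  · intro v
    simp only [tri, Pi.add_apply, Finset.sum_add_distrib, sum_del_out, sum_del_in]
    ring
  · intro v
    simp only [tri, Pi.add_apply, del]
    have h1 : ¬ (v = a ∧ v = b) := fun h => hab (h.1.symm.trans h.2)
    have h2 : ¬ (v = b ∧ v = c) := fun h => hbc (h.1.symm.trans h.2)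
    have h3 : ¬ (v = c ∧ v = a) := fun h => hca (h.1.symm.trans h.2)
    simp [h1, h2, h3]

theorem sum_tri (a b c : V) : ∑ p, tri a b c p = 3 := by
  simp only [tri, Pi.add_apply, Finset.sum_add_distrib, Fintype.sum_prod_type, sum_del_out]
  simp

/-- The multiset of oriented triangles of a chain. -/
noncomputable def triM (X : V → V → V → ℤ) : Multiset (V × V → ℕ) :=
  ∑ a, ∑ b, ∑ c, (Multiset.replicate (X a b c).toNat (tri a b c) +
    Multiset.replicate (- X a b c).toNat (tri a c b))

theorem card_triM (X : V → V → V → ℤ) :
    ((triM X).card : ℤ) = ∑ a, ∑ b, ∑ c, |X a b c| := by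
  unfold triM
  simp only [Multiset.card_sum, Multiset.card_add, Multiset.card_replicate]
  push_cast
  apply Finset.sum_congr rfl; intro a _
  apply Finset.sum_congr rfl; intro b _
  apply Finset.sum_congr rfl; intro c _
  rcases abs_cases (X a b c) with ⟨h1, h2⟩ | ⟨h1, h2⟩ <;> rw [h1] <;> omega

theorem mem_triM {X : V → V → V → ℤ}
    (hX : ∀ a b c, X a b c ≠ 0 → a ≠ b ∧ b ≠ c ∧ c ≠ a) :
    ∀ W ∈ triM X, Good W := by
  intro W hW
  unfold triM at hW
  simp only [Multiset.mem_sum, Multiset.mem_add, Multiset.mem_replicate] at hW
  obtain ⟨a, _, b, _, c, _, h | h⟩ := hW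
  · have h0 : X a b c ≠ 0 := by
      intro h0; rw [h0] at h; simp at h
    obtain ⟨h1, h2, h3⟩ := hX a b c h0
    rw [h.2]
    exact good_tri h1 h2 h3
  · have h0 : X a b c ≠ 0 := by
      intro h0; rw [h0] at h; simp at h
    obtain ⟨h1, h2, h3⟩ := hX a b c h0
    rw [h.2]
    exact good_tri h3.symm h2.symm h1.symm

theorem sum_triM (X : V → V → V → ℤ) (p : V × V) :
    (triM X).sum p = ∑ a, ∑ b, ∑ c, ((X a b c).toNat * tri a b c p +
      (- X a b c).toNat * tri a c b p) := by
  unfold triM
  simp only [Multiset.sum_sum, Finset.sum_apply, Multiset.sum_add, Multiset.sum_replicate,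
    Pi.add_apply, Pi.smul_apply, smul_eq_mul]

theorem total_triM (X : V → V → V → ℤ) :
    ∑ p, (triM X).sum p = 3 * (triM X).card := by
  have h : ∀ M : Multiset (V × V → ℕ), (∀ W ∈ M, ∑ p, W p = 3) →
      ∑ p, M.sum p = 3 * M.card := by
    intro M
    induction M using Multiset.induction_on with
    | empty => intro _; simp
    | cons W M ih =>
        intro hM
        rw [Multiset.sum_cons]
        simp only [Pi.add_apply, Finset.sum_add_distrib]
        rw [hM W (Multiset.mem_cons_self _ _),
          ih (fun W' h' => hM W' (Multiset.mem_cons_of_mem h')), Multiset.card_cons]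
        ring
  apply h
  intro W hW
  unfold triM at hW
  simp only [Multiset.mem_sum, Multiset.mem_add, Multiset.mem_replicate] at hW
  obtain ⟨a, _, b, _, c, _, h | h⟩ := hW
  · rw [h.2]; exact sum_tri _ _ _
  · rw [h.2]; exact sum_tri _ _ _

theorem net_triM (X : V → V → V → ℤ) (u v : V) :
    ((triM X).sum (u, v) : ℤ) - (triM X).sum (v, u) = bd X u v := by
  rw [sum_triM, sum_triM]
  push_cast
  have key : ∀ u v : V, ∑ a, ∑ b, ∑ c, (X a b c) * (tri a b c (u, v) : ℤ) =
      ∑ w, (X u v w + X w u v + X v w u) := by
    intro u v
    simp only [tri, Pi.add_apply, del]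
    push_cast
    simp only [mul_add, Finset.sum_add_distrib]
    congr 1
    · congr 1
      · rw [Finset.sum_eq_single u, Finset.sum_eq_single v]
        · simp
        · intro b _ hb; apply Finset.sum_eq_zero; intro c _; simp [hb.symm]
        · simp
        · intro b _ hb
          apply Finset.sum_eq_zero; intro c _
          apply Finset.sum_eq_zero; intro c _
          simp [hb.symm]
        · simp
      · apply Finset.sum_congr rfl
        intro a _
        rw [Finset.sum_eq_single u, Finset.sum_eq_single v]
        · simp
        · intro b _ hb; simp [hb.symm]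
        · simp
        · intro b _ hb; apply Finset.sum_eq_zero; intro c _; simp [hb.symm]
        · simp
    · rw [Finset.sum_eq_single v]
      · apply Finset.sum_congr rfl
        intro b _
        rw [Finset.sum_eq_single u]
        · simp
        · intro b _ hb; simp [hb.symm]
        · simp
      · intro b _ hb
        apply Finset.sum_eq_zero; intro c _
        apply Finset.sum_eq_zero; intro c _
        simp [hb.symm]
      · simp
  have hsw : ∀ a b c : V, tri a c b (u, v) = tri a b c (v, u) := by
    intro a b c
    simp only [tri, Pi.add_apply, del]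
    have e1 : (u = a ∧ v = c) ↔ (v = c ∧ u = a) := And.comm
    have e2 : (u = c ∧ v = b) ↔ (v = b ∧ u = c) := And.comm
    have e3 : (u = b ∧ v = a) ↔ (v = a ∧ u = b) := And.comm
    simp only [e1, e2, e3]
    ring
  have hsw' : ∀ a b c : V, tri a c b (v, u) = tri a b c (u, v) := by
    intro a b c
    simp only [tri, Pi.add_apply, del]
    have e1 : (v = a ∧ u = c) ↔ (u = c ∧ v = a) := And.comm
    have e2 : (v = c ∧ u = b) ↔ (u = b ∧ v = c) := And.comm
    have e3 : (v = b ∧ u = a) ↔ (u = a ∧ v = b) := And.comm
    simp only [e1, e2, e3]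
    ring
  unfold bd
  rw [← key u v, ← key v u, ← Finset.sum_sub_distrib, ← Finset.sum_sub_distrib]
  apply Finset.sum_congr rfl; intro a _
  rw [← Finset.sum_sub_distrib, ← Finset.sum_sub_distrib]
  apply Finset.sum_congr rfl; intro b _
  rw [← Finset.sum_sub_distrib, ← Finset.sum_sub_distrib]
  apply Finset.sum_congr rfl; intro c _
  rw [hsw a b c, hsw' a b c]
  have hz : X a b c = ((X a b c).toNat : ℤ) - ((- X a b c).toNat : ℤ) := by omega
  generalize ((X a b c).toNat : ℤ) = x at *
  generalize ((- X a b c).toNat : ℤ) = y at *
  rw [hz]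
  push_cast
  ring

/-- The difference of two tournaments. -/
noncomputable def dif (T T' : V → V → Prop) (u v : V) : ℤ :=
  (if T u v ∧ T' v u then 1 else 0) - (if T v u ∧ T' u v then 1 else 0)

/-- A 2-chain with boundary `dif T T'` and `k` triangles gives at most `k` reversals from `T`
to `T'`. -/
theorem steps_of_chain {T T' : V → V → Prop} (hT : IsTour T) (hT' : IsTour T')
    (X : V → V → V → ℤ) (hX : ∀ a b c, X a b c ≠ 0 → a ≠ b ∧ b ≠ c ∧ c ≠ a)
    (hbd : ∀ u v, bd X u v = dif T T' u v) :
    ∃ k : ℕ, (k : ℤ) ≤ ∑ a, ∑ b, ∑ c, |X a b c| ∧ Steps k T T' := by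
  have hD : Decomp (triM X).sum (triM X).card := ⟨triM X, mem_triM hX, rfl, rfl⟩
  obtain ⟨A, k, ⟨M, hM, hMs, hMc⟩, htot, hnet, hno⟩ := Decomp.reduce _ _ _ rfl hD
  have hA : ∀ u v, A (u, v) = if T u v ∧ T' v u then 1 else 0 := by
    intro u v
    have h1 := hnet u v
    rw [net_triM, hbd] at h1
    unfold dif at h1
    have h2 := hno u v
    by_cases c1 : T u v ∧ T' v u
    · have c2 : ¬ (T v u ∧ T' u v) := fun h => hT.not_symm c1.1 h.1
      rw [if_pos c1, if_neg c2] at h1
      rw [if_pos c1]
      omega
    · by_cases c2 : T v u ∧ T' u v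
      · rw [if_neg c1, if_pos c2] at h1
        rw [if_neg c1]
        omega
      · rw [if_neg c1, if_neg c2] at h1
        rw [if_neg c1]
        omega
  obtain ⟨l, hl, hst⟩ := steps_multiset M T hT hM
    (by intro p; obtain ⟨u, v⟩ := p; rw [hMs, hA]; split_ifs <;> omega)
    (by
      intro u v huv
      rw [hMs, hA] at huv
      by_contra hcon
      rw [if_neg (fun h => hcon h.1)] at huv
      omega)
  have hfl : flipF T M.sum = T' := by
    rw [hMs]
    funext u v
    unfold flipF flipP
    beta_reduce
    rw [hA, hA]
    by_cases huv : u = v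
    · subst huv
      have h1 := hT.1 u
      have h2 := hT'.1 u
      simp [h1, h2]
    · have t1 := hT.2 u v huv
      have t2 := hT'.2 u v huv
      by_cases a1 : T u v <;> by_cases a2 : T' u v
      · have b1 : ¬ T v u := t1.1 a1
        have b2 : ¬ T' v u := t2.1 a2
        simp [a1, a2, b1, b2]
      · have b1 : ¬ T v u := t1.1 a1
        have b2 : T' v u := by
          by_contra h; exact a2 (t2.2 h)
        simp [a1, a2, b1, b2]
      · have b1 : T v u := by
          by_contra h; exact a1 (t1.2 h)
        have b2 : ¬ T' v u := t2.1 a2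
        simp [a1, a2, b1, b2]
      · have b1 : T v u := by
          by_contra h; exact a1 (t1.2 h)
        have b2 : T' v u := by
          by_contra h; exact a2 (t2.2 h)
        simp [a1, a2, b1, b2]
  rw [hfl] at hst
  refine ⟨l, ?_, hst⟩
  rw [← card_triM]
  rw [total_triM] at htot
  rw [hMs, hMc] at hl
  omega

end Pool.Agent.Helper40.TI
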