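import Pool.Agent.Helper40.TI.Assemble

/-!
The asymptotic bound for the number of reversals of directed 3-cycles between two tournaments
with the same scores.
-/

namespace Pool.Agent.Helper40.TI

open Classical Finset

variable {V : Type*} [Fintype V]

theorem cs2 {α β : Type*} [Fintype α] [Fintype β] (f : α → β → ℝ) :
    (∑ a, ∑ b, f a b) ^ 2 ≤ (Fintype.card α : ℝ) * (Fintype.card β : ℝ) *
      ∑ a, ∑ b, (f a b) ^ 2 := by
  have h := sq_sum_le_card_mul_sum_sq (s := (Finset.univ : Finset (α × β)))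
    (f := fun p : α × β => f p.1 p.2)
  rw [Fintype.sum_prod_type, Fintype.sum_prod_type] at h
  rw [Finset.card_univ, Fintype.card_prod] at h
  push_cast at h
  exact h

theorem main_bound [Nonempty V] {T T' : V → V → Prop} (hT : IsTour T) (hT' : IsTour T')
    (hrow : ∀ v, ∑ u, dif T T' v u = 0) :
    ∃ k : ℕ, Steps k T T' ∧
      (k : ℝ) ≤ (Fintype.card V : ℝ) ^ 2 / 4 + 14 * (Fintype.card V : ℝ) ^ (7 / 4 : ℝ) := by
  set n : ℝ := (Fintype.card V : ℝ) with hn
  have hn1 : 1 ≤ n := by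
    rw [hn]; exact_mod_cast Fintype.card_pos (α := V)
  have hn0 : 0 ≤ n := by linarith
  -- the fourth root
  set q : ℝ := Real.sqrt (Real.sqrt n) with hq
  have hq2 : q ^ 2 = Real.sqrt n := Real.sq_sqrt (Real.sqrt_nonneg _)
  have hq4 : q ^ 4 = n := by
    have : q ^ 4 = (q ^ 2) ^ 2 := by ring
    rw [this, hq2, Real.sq_sqrt hn0]
  have hq0 : 0 ≤ q := Real.sqrt_nonneg _
  have hq1 : 1 ≤ q := by
    rw [hq]
    rw [Real.one_le_sqrt, Real.one_le_sqrt]
    exact hn1
  have hq7 : n ^ (7 / 4 : ℝ) = q ^ 7 := by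
    rw [← hq4, ← Real.rpow_natCast q 4, ← Real.rpow_mul hq0, ← Real.rpow_natCast q 7]
    norm_num
  have hq67 : q ^ 6 ≤ q ^ 7 := pow_le_pow_right₀ hq1 (by norm_num)
  have hq46 : q ^ 4 ≤ q ^ 6 := pow_le_pow_right₀ hq1 (by norm_num)
  have hq6 : 0 ≤ q ^ 6 := by positivity
  have hq7' : 0 ≤ q ^ 7 := by positivity
  have hq22 : 1 ≤ q ^ 2 := one_le_pow₀ hq1
  -- the number of labels
  set r : ℕ := ⌈q ^ 2⌉₊ with hr
  have hr1 : q ^ 2 ≤ r := Nat.le_ceil _
  have hr2 : (r : ℝ) < q ^ 2 + 1 := Nat.ceil_lt_add_one (by positivity)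
  have hrpos : 0 < r := by
    have : (0 : ℝ) < r := by linarith
    exact_mod_cast this
  -- properties of the difference
  set s : V → V → ℤ := dif T T' with hs
  have s1 : ∀ u v, s u v = -1 ∨ s u v = 0 ∨ s u v = 1 := by
    intro u v
    rw [hs]; unfold dif
    split_ifs <;> simp
  have sk : ∀ u v, s u v = - s v u := by
    intro u v
    rw [hs]; unfold dif; ring
  have sabs : ∀ u v, |(s u v : ℝ)| ≤ 1 := by
    intro u v
    rcases s1 u v with h | h | h <;> simp [h]
  have rowR : ∀ x, ∑ y, (s x y : ℝ) = 0 := by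
    intro x
    have : ((∑ y, s x y : ℤ) : ℝ) = 0 := by rw [hrow x]; simp
    push_cast at this
    exact this
  have colR : ∀ y, ∑ x, (s x y : ℝ) = 0 := by
    intro y
    have : ∑ x, (s x y : ℝ) = - ∑ x, (s y x : ℝ) := by
      rw [← Finset.sum_neg_distrib]
      apply Finset.sum_congr rfl; intro x _
      rw [sk x y]; push_cast; rfl
    rw [this, rowR y]; simp
  have diagR : ∀ x, (s x x : ℝ) = 0 := by
    intro x
    have := sk x x
    have h : s x x = 0 := by omega
    rw [h]; simp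
  obtain ⟨l, hA, hB, hC⟩ := exists_labels hrpos (fun x y => (s x y : ℝ)) sabs rowR colR diagR
  set m : Fin r → ℝ := fun i => ((univ.filter (fun y => l y = i)).card : ℝ) with hm
  set N : Fin r → ℝ := fun i => ((univ.filter (fun x => i < l x)).card : ℝ) with hN
  obtain ⟨φ, p1, p2, p3, p4⟩ := assemble l s s1 sk hrow m N (fun i => rfl) (fun i => rfl)
    _ _ _ rfl rfl rfl
  obtain ⟨k, hk, hst⟩ := steps_of_flow hT hT' φ p1 p2 p3
  refine ⟨k, hst, ?_⟩
  have hk' : (k : ℝ) ≤ ((∑ x, ∑ a, ∑ b, max (φ x a b) 0 : ℤ) : ℝ) := by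
    have : ((k : ℤ) : ℝ) ≤ ((∑ x, ∑ a, ∑ b, max (φ x a b) 0 : ℤ) : ℝ) := Int.cast_le.2 hk
    simpa using this
  refine hk'.trans (p4.trans ?_)
  set L := ∑ i, ∑ x ∈ univ.filter (fun x => i < l x),
      |((∑ y ∈ univ.filter (fun y => l y = i), s x y : ℤ) : ℝ)| with hL
  set C := ∑ i, m i ^ 2 with hCdef
  set B := ∑ b, |((∑ x ∈ univ.filter (fun x => l b < l x), s x b : ℤ) : ℝ)| with hBdef
  have hm0 : ∀ i, 0 ≤ m i := fun i => Nat.cast_nonneg _
  have hN0 : ∀ i, 0 ≤ N i := fun i => Nat.cast_nonneg _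
  have hNn : ∀ i, N i ≤ n := by
    intro i
    rw [hN, hn]; beta_reduce
    exact_mod_cast Finset.card_le_univ _
  have hsumm : ∑ i, m i = n := by
    have h := sum_labels' l (fun _ _ => (1 : ℝ))
    simp only [Finset.sum_const, nsmul_eq_mul, mul_one, Finset.card_univ] at h
    rw [hn, ← h]
  -- L
  have hL1 : L ≤ ∑ x, ∑ i, |∑ y, (s x y : ℝ) * (if l y = i then 1 else 0)| := by
    rw [Finset.sum_comm, hL]
    apply Finset.sum_le_sum; intro i _
    have e : ∀ x, |((∑ y ∈ univ.filter (fun y => l y = i), s x y : ℤ) : ℝ)| =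
        |∑ y, (s x y : ℝ) * (if l y = i then 1 else 0)| := by
      intro x
      push_cast
      rw [Finset.sum_filter]
      congr 1
      apply Finset.sum_congr rfl; intro y _
      split_ifs <;> simp
    rw [Finset.sum_congr rfl (fun x _ => e x)]
    apply Finset.sum_le_sum_of_subset_of_nonneg (Finset.subset_univ _)
    intro x _ _
    exact abs_nonneg _
  have hL0 : 0 ≤ L := by
    rw [hL]
    apply Finset.sum_nonneg; intro i _
    apply Finset.sum_nonneg; intro x _
    exact abs_nonneg _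
  have hL2 : L ^ 2 ≤ 6 * (q ^ 7) ^ 2 := by
    have h1 : L ^ 2 ≤ (∑ x, ∑ i, |∑ y, (s x y : ℝ) * (if l y = i then 1 else 0)|) ^ 2 :=
      pow_le_pow_left₀ hL0 hL1 2
    have h2 := cs2 (fun (x : V) (i : Fin r) => |∑ y, (s x y : ℝ) * (if l y = i then 1 else 0)|)
    simp only [sq_abs, Fintype.card_fin] at h2
    rw [← hn] at h2
    have h3 : n * r * ∑ x, ∑ i, (∑ y, (s x y : ℝ) * (if l y = i then 1 else 0)) ^ 2 ≤
        n * (2 * q ^ 2) * (3 * n ^ 2) := by
      apply mul_le_mul _ hA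
      · positivity
      · positivity
      · apply mul_le_mul_of_nonneg_left _ hn0
        linarith
    have h4 : n * (2 * q ^ 2) * (3 * n ^ 2) = 6 * (q ^ 7) ^ 2 := by
      rw [← hq4]; ring
    linarith
  have hL3 : L ≤ 2.45 * q ^ 7 := by
    apply le_of_sq_le_sq _ (by positivity)
    have h0 : 0 ≤ (q ^ 7) ^ 2 := sq_nonneg _
    have h1 : (2.45 * q ^ 7) ^ 2 = 6.0025 * (q ^ 7) ^ 2 := by ring
    rw [h1]
    linarith
  -- B
  have hB0 : 0 ≤ B := by
    rw [hBdef]
    apply Finset.sum_nonneg; intro i _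
    exact abs_nonneg _
  have hB2 : B ^ 2 ≤ 3 * (q ^ 6) ^ 2 := by
    have e : ∀ b, |((∑ x ∈ univ.filter (fun x => l b < l x), s x b : ℤ) : ℝ)| =
        |∑ x, (s x b : ℝ) * (if l b < l x then 1 else 0)| := by
      intro b
      push_cast
      rw [Finset.sum_filter]
      congr 1
      apply Finset.sum_congr rfl; intro y _
      split_ifs <;> simp
    have h1 : B = ∑ b, |∑ x, (s x b : ℝ) * (if l b < l x then 1 else 0)| := by
      rw [hBdef]; exact Finset.sum_congr rfl (fun b _ => e b)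
    have h2 := sq_sum_le_card_mul_sum_sq (s := (Finset.univ : Finset V))
      (f := fun b => |∑ x, (s x b : ℝ) * (if l b < l x then 1 else 0)|)
    simp only [sq_abs, Finset.card_univ] at h2
    rw [← h1, ← hn] at h2
    have h3 : n * ∑ b, (∑ x, (s x b : ℝ) * (if l b < l x then 1 else 0)) ^ 2 ≤
        n * (3 * n ^ 2) := mul_le_mul_of_nonneg_left hB hn0
    have h4 : n * (3 * n ^ 2) = 3 * (q ^ 6) ^ 2 := by
      rw [← hq4]; ring
    linarith
  have hB3 : B ≤ 1.74 * q ^ 6 := by
    apply le_of_sq_le_sq _ (by positivity)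
    have h0 : 0 ≤ (q ^ 6) ^ 2 := sq_nonneg _
    have h1 : (1.74 * q ^ 6) ^ 2 = 3.0276 * (q ^ 6) ^ 2 := by ring
    rw [h1]
    linarith
  -- C
  have hC3 : C ≤ 6 * q ^ 6 := by
    have e : ∀ i, (∑ y, (if l y = i then (1 : ℝ) else 0)) = m i := by
      intro i
      rw [hm]; simp
    have h1 : C ≤ 3 * (n + n ^ 2 / r) := by
      rw [hCdef]
      rw [Finset.sum_congr rfl (fun i _ => by rw [← e i])]
      exact hC
    have h2 : n ^ 2 / r ≤ q ^ 6 := by
      rw [div_le_iff₀ (by exact_mod_cast hrpos)]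
      rw [← hq4]
      calc (q ^ 4) ^ 2 = q ^ 6 * q ^ 2 := by ring
        _ ≤ q ^ 6 * r := mul_le_mul_of_nonneg_left hr1 hq6
    have h3 : n ≤ q ^ 6 := by rw [← hq4]; exact hq46
    linarith
  -- the pair count
  have hpairs : ∑ i, N i * m i ≤ n ^ 2 / 2 := by
    have h1 : ∑ i, N i * m i = ∑ u, ∑ v, (if l v < l u then (1 : ℝ) else 0) := by
      rw [sum_labels l (fun _ _ _ => (1 : ℝ))]
      apply Finset.sum_congr rfl; intro i _
      simp [hm, hN]
    have h2 : ∑ u, ∑ v, (if l v < l u then (1 : ℝ) else 0) =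
        ∑ u, ∑ v, (if l u < l v then (1 : ℝ) else 0) := Finset.sum_comm
    have h3 : ∑ u, ∑ v, (if l v < l u then (1 : ℝ) else 0) +
        ∑ u, ∑ v, (if l u < l v then (1 : ℝ) else 0) ≤ n ^ 2 := by
      rw [← Finset.sum_add_distrib]
      calc _ ≤ ∑ _u : V, n := by
            apply Finset.sum_le_sum; intro u _
            rw [← Finset.sum_add_distrib]
            calc _ ≤ ∑ _v : V, (1 : ℝ) := by
                  apply Finset.sum_le_sum; intro v _
                  by_cases c1 : l v < l u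
                  · have c2 : ¬ (l u < l v) := not_lt.2 c1.le
                    simp [c1, c2]
                  · by_cases c2 : l u < l v
                    · simp [c1, c2]
                    · simp [c1, c2]
              _ = n := by simp [hn]
        _ = n ^ 2 := by simp [hn]; ring
    linarith
  -- the square root terms
  have hR1 : ∑ i, m i * Real.sqrt (3 * N i) ≤ 1.74 * q ^ 6 := by
    have h1 : ∀ i, m i * Real.sqrt (3 * N i) ≤ m i * (1.74 * q ^ 2) := by
      intro i
      apply mul_le_mul_of_nonneg_left _ (hm0 i)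
      rw [Real.sqrt_le_left (by positivity)]
      have h2 := hNn i
      have h3 : (1.74 * q ^ 2) ^ 2 = 3.0276 * q ^ 4 := by ring
      rw [h3, hq4]
      linarith
    calc _ ≤ ∑ i, m i * (1.74 * q ^ 2) := Finset.sum_le_sum (fun i _ => h1 i)
      _ = n * (1.74 * q ^ 2) := by rw [← Finset.sum_mul, hsumm]
      _ = 1.74 * q ^ 6 := by rw [← hq4]; ring
  have hR2 : ∑ i, m i * Real.sqrt (3 * m i * N i) ≤ 4.25 * q ^ 7 := by
    apply le_of_sq_le_sq _ (by positivity)
    have h1 := Finset.sum_mul_sq_le_sq_mul_sq (Finset.univ : Finset (Fin r)) m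
      (fun i => Real.sqrt (3 * m i * N i))
    have h2 : ∑ i, (Real.sqrt (3 * m i * N i)) ^ 2 ≤ 3 * n ^ 2 := by
      calc _ = ∑ i, 3 * m i * N i := by
            apply Finset.sum_congr rfl; intro i _
            exact Real.sq_sqrt (mul_nonneg (mul_nonneg (by norm_num) (hm0 i)) (hN0 i))
        _ ≤ ∑ i, 3 * n * m i := by
            apply Finset.sum_le_sum; intro i _
            have := mul_le_mul_of_nonneg_left (hNn i) (hm0 i)
            have e1 : 3 * m i * N i = 3 * (m i * N i) := by ring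
            have e2 : 3 * n * m i = 3 * (m i * n) := by ring
            rw [e1, e2]
            linarith
        _ = 3 * n ^ 2 := by rw [← Finset.mul_sum, hsumm]; ring
    have hC0 : 0 ≤ C := by
      rw [hCdef]; exact Finset.sum_nonneg (fun i _ => sq_nonneg _)
    have h3 : C * ∑ i, (Real.sqrt (3 * m i * N i)) ^ 2 ≤ (6 * q ^ 6) * (3 * n ^ 2) := by
      apply mul_le_mul hC3 h2
      · exact Finset.sum_nonneg (fun i _ => sq_nonneg _)
      · positivity
    have h4 : (6 * q ^ 6) * (3 * n ^ 2) = 18 * (q ^ 7) ^ 2 := by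
      rw [← hq4]; ring
    have h5 : 0 ≤ (q ^ 7) ^ 2 := by positivity
    have h6 : (4.25 * q ^ 7) ^ 2 = 18.0625 * (q ^ 7) ^ 2 := by ring
    rw [h6]
    linarith
  have hsplit : ∑ i, (N i * m i / 2 + m i * Real.sqrt (3 * N i)) =
      (∑ i, N i * m i) / 2 + ∑ i, m i * Real.sqrt (3 * N i) := by
    rw [Finset.sum_add_distrib, Finset.sum_div]
  rw [hsplit, hq7]
  linarith

end Pool.Agent.Helper40.TI
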