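import Mathlib

/-!
Integral flows on a batch with prescribed divergence, close on average to the linear flow
(Birkhoff's theorem), chosen so that a quadratic potential grows slowly.
-/

namespace Pool.Agent.Helper40.TI

open Classical Finset

variable {V : Type*} [Fintype V]

theorem exists_le_of_avg {ι : Type*} [Fintype ι] (w F : ι → ℝ) (hw : ∀ i, 0 ≤ w i)
    (hs : ∑ i, w i = 1) (K : ℝ) (hF : ∑ i, w i * F i ≤ K) : ∃ i, 0 < w i ∧ F i ≤ K := by
  by_contra hcon
  push Not at hcon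
  have h1 : ∑ i, w i * K < ∑ i, w i * F i := by
    apply Finset.sum_lt_sum
    · intro i _
      rcases (hw i).eq_or_lt with h | h
      · rw [← h]; simp
      · exact mul_le_mul_of_nonneg_left (hcon i h).le (hw i)
    · have : ∃ i, 0 < w i := by
        by_contra h
        push Not at h
        have : ∑ i, w i ≤ 0 := Finset.sum_nonpos (fun i _ => h i)
        linarith
      obtain ⟨i, hi⟩ := this
      exact ⟨i, Finset.mem_univ _, mul_lt_mul_of_pos_left (hcon i hi) hi⟩
  rw [← Finset.sum_mul, hs, one_mul] at h1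
  linarith

theorem variance_le {ι : Type*} [Fintype ι] (w x : ι → ℝ) (hs : ∑ i, w i = 1) (e μ : ℝ)
    (hμ : ∑ i, w i * x i = μ) :
    ∑ i, w i * (e + x i - μ) ^ 2 ≤ e ^ 2 + ∑ i, w i * (x i) ^ 2 := by
  have h : ∑ i, w i * (e + x i - μ) ^ 2 =
      (e - μ) ^ 2 * ∑ i, w i + 2 * (e - μ) * ∑ i, w i * x i + ∑ i, w i * (x i) ^ 2 := by
    rw [Finset.mul_sum, Finset.mul_sum, ← Finset.sum_add_distrib, ← Finset.sum_add_distrib]
    apply Finset.sum_congr rfl
    intro i _
    ring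
  rw [h, hs, hμ]
  nlinarith [sq_nonneg μ]

/-- The linear flow on the batch `Y`. -/
noncomputable def lin (Y : Finset V) (σ : V → ℤ) (a b : V) : ℝ :=
  if a ∈ Y ∧ b ∈ Y then ((σ b : ℝ) - σ a) / Y.card else 0

section local_lemma

variable (Y : Finset V) (σ : V → ℤ)

noncomputable def iP (v : V) : ℝ := if σ v = 1 then 1 else 0
noncomputable def iQ (v : V) : ℝ := if σ v = -1 then 1 else 0
noncomputable def iZ (v : V) : ℝ := if v ∈ Y ∧ σ v = 0 then 1 else 0
noncomputable def iO (v : V) : ℝ := if v ∈ Y then 0 else 1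

noncomputable def bM (p m : ℝ) : Matrix V V ℝ := fun a b =>
  iP σ a * iQ σ b / p + iQ σ a * iP σ b * 2 / m + iQ σ a * iZ Y σ b / m +
    iZ Y σ a * iP σ b / m + (if a = b then iZ Y σ a * (1 - p / m) + iO Y a else 0)

variable {Y σ}

theorem type_cases (h1 : ∀ v, σ v = -1 ∨ σ v = 0 ∨ σ v = 1) (h2 : ∀ v, v ∉ Y → σ v = 0) (v : V) :
    (σ v = 1 ∧ v ∈ Y ∧ iP σ v = 1 ∧ iQ σ v = 0 ∧ iZ Y σ v = 0 ∧ iO Y v = 0) ∨
    (σ v = -1 ∧ v ∈ Y ∧ iP σ v = 0 ∧ iQ σ v = 1 ∧ iZ Y σ v = 0 ∧ iO Y v = 0) ∨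
    (σ v = 0 ∧ v ∈ Y ∧ iP σ v = 0 ∧ iQ σ v = 0 ∧ iZ Y σ v = 1 ∧ iO Y v = 0) ∨
    (σ v = 0 ∧ v ∉ Y ∧ iP σ v = 0 ∧ iQ σ v = 0 ∧ iZ Y σ v = 0 ∧ iO Y v = 1) := by
  unfold iP iQ iZ iO
  by_cases hv : v ∈ Y
  · rcases h1 v with h | h | h
    · right; left; simp [h, hv]
    · right; right; left; simp [h, hv]
    · left; simp [h, hv]
  · have h := h2 v hv
    right; right; right; simp [h, hv]

theorem bM_mem (h1 : ∀ v, σ v = -1 ∨ σ v = 0 ∨ σ v = 1) (h2 : ∀ v, v ∉ Y → σ v = 0)
    {p z m : ℝ} (hp : 0 < p) (hm : m = 2 * p + z) (hz : 0 ≤ z)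
    (sP : ∑ v, iP σ v = p) (sQ : ∑ v, iQ σ v = p) (sZ : ∑ v, iZ Y σ v = z) :
    bM Y σ p m ∈ doublyStochastic ℝ V := by
  have hm0 : 0 < m := by linarith
  rw [mem_doublyStochastic_iff_sum]
  have nP : ∀ v, 0 ≤ iP σ v := fun v => by unfold iP; split_ifs <;> norm_num
  have nQ : ∀ v, 0 ≤ iQ σ v := fun v => by unfold iQ; split_ifs <;> norm_num
  have nZ : ∀ v, 0 ≤ iZ Y σ v := fun v => by unfold iZ; split_ifs <;> norm_num
  have nO : ∀ v, 0 ≤ iO Y v := fun v => by unfold iO; split_ifs <;> norm_num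
  have hpm : 0 ≤ 1 - p / m := by
    rw [sub_nonneg, div_le_one hm0]; linarith
  refine ⟨?_, ?_, ?_⟩
  · intro a b
    unfold bM
    have t1 : 0 ≤ iP σ a * iQ σ b / p := by have := nP a; have := nQ b; positivity
    have t2 : 0 ≤ iQ σ a * iP σ b * 2 / m := by have := nQ a; have := nP b; positivity
    have t3 : 0 ≤ iQ σ a * iZ Y σ b / m := by have := nQ a; have := nZ b; positivity
    have t4 : 0 ≤ iZ Y σ a * iP σ b / m := by have := nZ a; have := nP b; positivity
    have t5 : (0 : ℝ) ≤ (if a = b then iZ Y σ a * (1 - p / m) + iO Y a else 0) := by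
      split_ifs
      · exact add_nonneg (mul_nonneg (nZ a) hpm) (nO a)
      · exact le_rfl
    linarith
  · intro a
    unfold bM
    simp only [Finset.sum_add_distrib]
    rw [← Finset.sum_div, ← Finset.mul_sum, sQ]
    rw [← Finset.sum_div, ← Finset.sum_mul, ← Finset.mul_sum, sP]
    rw [← Finset.sum_div, ← Finset.mul_sum, sZ]
    rw [← Finset.sum_div, ← Finset.mul_sum, sP]
    simp only [Finset.sum_ite_eq, Finset.mem_univ, if_true]
    rcases type_cases h1 h2 a with ⟨_, _, c1, c2, c3, c4⟩ | ⟨_, _, c1, c2, c3, c4⟩ |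
      ⟨_, _, c1, c2, c3, c4⟩ | ⟨_, _, c1, c2, c3, c4⟩ <;> rw [c1, c2, c3, c4] <;>
      field_simp <;> linarith
  · intro b
    unfold bM
    simp only [Finset.sum_add_distrib]
    rw [← Finset.sum_div, ← Finset.sum_mul, sP]
    rw [← Finset.sum_div, ← Finset.sum_mul, ← Finset.sum_mul, sQ]
    rw [← Finset.sum_div, ← Finset.sum_mul, sQ]
    rw [← Finset.sum_div, ← Finset.sum_mul, sZ]
    simp only [Finset.sum_ite_eq', Finset.mem_univ, if_true]
    rcases type_cases h1 h2 b with ⟨_, _, c1, c2, c3, c4⟩ | ⟨_, _, c1, c2, c3, c4⟩ |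
      ⟨_, _, c1, c2, c3, c4⟩ | ⟨_, _, c1, c2, c3, c4⟩ <;> rw [c1, c2, c3, c4] <;>
      field_simp <;> linarith

/-- The flow of a permutation. -/
noncomputable def pf (σ : V → ℤ) (π : Equiv.Perm V) (a b : V) : ℤ :=
  (if π a = b ∧ σ a ≠ 1 then 1 else 0) - (if π b = a ∧ σ b ≠ 1 then 1 else 0)

noncomputable def pc (σ : V → ℤ) (π : Equiv.Perm V) : ℝ :=
  ∑ a, (if σ a ≠ 1 ∧ π a ≠ a then 1 else 0)

theorem pf_diag (σ : V → ℤ) (π : Equiv.Perm V) (a : V) : pf σ π a a = 0 := by
  unfold pf; simp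

theorem pf_skew (σ : V → ℤ) (π : Equiv.Perm V) (a b : V) : pf σ π a b = - pf σ π b a := by
  unfold pf; ring

theorem ite_and_aux (p q : Prop) [Decidable (p ∧ q)] [Decidable p] [Decidable q] :
    (if p ∧ q then (1 : ℝ) else 0) = if p then (if q then 1 else 0) else 0 := by
  by_cases hp : p <;> by_cases hq : q <;> simp [hp, hq]

theorem ind_sq_le (p q : Prop) [Decidable p] [Decidable q] :
    ((((if p then 1 else 0) - (if q then 1 else 0) : ℤ)) : ℝ) ^ 2 ≤
      (if p then 1 else 0) + (if q then 1 else 0) := by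
  by_cases hp : p <;> by_cases hq : q <;> simp [hp, hq]

theorem ind_max_le (p q : Prop) [Decidable p] [Decidable q] :
    ((max ((if p then 1 else 0) - (if q then 1 else 0) : ℤ) 0 : ℤ) : ℝ) ≤
      (if p then 1 else 0) := by
  by_cases hp : p <;> by_cases hq : q <;> simp [hp, hq]

theorem pf_sq_le (σ : V → ℤ) (π : Equiv.Perm V) (a b : V) :
    ((pf σ π a b : ℤ) : ℝ) ^ 2 ≤ (if π a = b then (if σ a ≠ 1 ∧ π a ≠ a then 1 else 0) else 0) +
      (if π b = a then (if σ b ≠ 1 ∧ π b ≠ b then 1 else 0) else 0) := by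
  by_cases hab : a = b
  · subst hab
    rw [pf_diag]
    have : (0 : ℝ) ≤ (if π a = a then (if σ a ≠ 1 ∧ π a ≠ a then 1 else 0) else 0) := by
      split_ifs <;> norm_num
    push_cast
    linarith
  · unfold pf
    have e1 : (π a = b ∧ σ a ≠ 1) ↔ (π a = b ∧ (σ a ≠ 1 ∧ π a ≠ a)) := by
      constructor
      · rintro ⟨h, h'⟩
        exact ⟨h, h', fun h'' => hab (h''.symm.trans h)⟩
      · rintro ⟨h, h', _⟩; exact ⟨h, h'⟩
    have e2 : (π b = a ∧ σ b ≠ 1) ↔ (π b = a ∧ (σ b ≠ 1 ∧ π b ≠ b)) := by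
      constructor
      · rintro ⟨h, h'⟩
        exact ⟨h, h', fun h'' => hab (h.symm.trans h'')⟩
      · rintro ⟨h, h', _⟩; exact ⟨h, h'⟩
    simp only [e1, e2]
    refine (ind_sq_le _ _).trans (le_of_eq ?_)
    rw [ite_and_aux (π a = b), ite_and_aux (π b = a)]

theorem pf_sq_sum (σ : V → ℤ) (π : Equiv.Perm V) :
    ∑ a, ∑ b, ((pf σ π a b : ℤ) : ℝ) ^ 2 ≤ 2 * pc σ π := by
  calc ∑ a, ∑ b, ((pf σ π a b : ℤ) : ℝ) ^ 2
      ≤ ∑ a, ∑ b, ((if π a = b then (if σ a ≠ 1 ∧ π a ≠ a then (1 : ℝ) else 0) else 0) +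
      (if π b = a then (if σ b ≠ 1 ∧ π b ≠ b then 1 else 0) else 0)) :=
        Finset.sum_le_sum (fun a _ => Finset.sum_le_sum (fun b _ => pf_sq_le σ π a b))
    _ = 2 * pc σ π := by
        simp only [Finset.sum_add_distrib]
        have h1 : ∑ a, ∑ b, (if π a = b then (if σ a ≠ 1 ∧ π a ≠ a then (1 : ℝ) else 0) else 0) =
            pc σ π := by
          unfold pc
          apply Finset.sum_congr rfl
          intro a _
          rw [Finset.sum_ite_eq]
          simp
        have h2 : ∑ a, ∑ b, (if π b = a then (if σ b ≠ 1 ∧ π b ≠ b then (1 : ℝ) else 0) else 0) =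
            pc σ π := by
          rw [Finset.sum_comm]
          exact h1
        rw [h1, h2]
        ring

theorem pf_pos_sum (σ : V → ℤ) (π : Equiv.Perm V) :
    ∑ a, ∑ b, ((max (pf σ π a b) 0 : ℤ) : ℝ) ≤ pc σ π := by
  have h1 : ∑ a, ∑ b, (if π a = b then (if σ a ≠ 1 ∧ π a ≠ a then (1 : ℝ) else 0) else 0) =
      pc σ π := by
    unfold pc
    apply Finset.sum_congr rfl
    intro a _
    rw [Finset.sum_ite_eq]
    simp
  rw [← h1]
  apply Finset.sum_le_sum
  intro a _
  apply Finset.sum_le_sum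
  intro b _
  by_cases hab : a = b
  · subst hab
    rw [pf_diag]
    split_ifs <;> simp
  · unfold pf
    have e1 : (π a = b ∧ σ a ≠ 1) ↔ (π a = b ∧ (σ a ≠ 1 ∧ π a ≠ a)) := by
      constructor
      · rintro ⟨h, h'⟩
        exact ⟨h, h', fun h'' => hab (h''.symm.trans h)⟩
      · rintro ⟨h, h', _⟩; exact ⟨h, h'⟩
    simp only [e1]
    refine (ind_max_le _ _).trans (le_of_eq ?_)
    rw [ite_and_aux]

theorem exists_perm_avg (h1 : ∀ v, σ v = -1 ∨ σ v = 0 ∨ σ v = 1) (h2 : ∀ v, v ∉ Y → σ v = 0)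
    {p z m : ℝ} (hp : 0 < p) (hm : m = 2 * p + z) (hz : 0 ≤ z)
    (sP : ∑ v, iP σ v = p) (sQ : ∑ v, iQ σ v = p) (sZ : ∑ v, iZ Y σ v = z)
    (hY : (Y.card : ℝ) = m) :
    ∃ w : Equiv.Perm V → ℝ, (∀ π, 0 ≤ w π) ∧ ∑ π, w π = 1 ∧
      (∀ π, 0 < w π → ∀ a, (σ a = 1 → σ (π a) = -1) ∧ (σ a = -1 → π a ∈ Y ∧ σ (π a) ≠ -1) ∧
        (a ∈ Y → σ a = 0 → σ (π a) = 1 ∨ π a = a) ∧ (a ∉ Y → π a = a)) ∧
      (∀ a b, ∑ π, w π * ((pf σ π a b : ℤ) : ℝ) = lin Y σ a b) ∧
      ∑ π, w π * pc σ π ≤ m / 2 := by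
  have hm0 : 0 < m := by linarith
  obtain ⟨w, hw0, hw1, hwM⟩ := exists_eq_sum_perm_of_mem_doublyStochastic
    (bM_mem h1 h2 hp hm hz sP sQ sZ)
  have hent : ∀ a b, ∑ π, w π * (if π a = b then (1 : ℝ) else 0) = bM Y σ p m a b := by
    intro a b
    rw [← hwM, Matrix.sum_apply]
    apply Finset.sum_congr rfl
    intro π _
    rw [Matrix.smul_apply]
    change _ = w π * (π.toPEquiv.toMatrix a b)
    rw [PEquiv.toMatrix_apply]
    congr 1
    simp [Equiv.toPEquiv_apply]
  have hpos : ∀ π, 0 < w π → ∀ a, 0 < bM Y σ p m a (π a) := by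
    intro π hπ a
    rw [← hent]
    refine lt_of_lt_of_le hπ ?_
    have := Finset.single_le_sum (f := fun π' => w π' * (if π' a = π a then (1 : ℝ) else 0))
      (fun π' _ => mul_nonneg (hw0 π') (by split_ifs <;> norm_num)) (Finset.mem_univ π)
    simpa using this
  refine ⟨w, hw0, hw1, ?_, ?_, ?_⟩
  · intro π hπ a
    have hb := hpos π hπ a
    unfold bM at hb
    rcases type_cases h1 h2 a with ⟨s1, y1, c1, c2, c3, c4⟩ | ⟨s1, y1, c1, c2, c3, c4⟩ |
      ⟨s1, y1, c1, c2, c3, c4⟩ | ⟨s1, y1, c1, c2, c3, c4⟩ <;>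
    rcases type_cases h1 h2 (π a) with ⟨t1, z1, d1, d2, d3, d4⟩ | ⟨t1, z1, d1, d2, d3, d4⟩ |
      ⟨t1, z1, d1, d2, d3, d4⟩ | ⟨t1, z1, d1, d2, d3, d4⟩ <;>
    rw [c1, c2, c3, c4, d1, d2, d3] at hb <;>
    (by_cases hfix : π a = a
     · rw [if_pos hfix.symm] at hb
       first
         | (exfalso; norm_num at hb; done)
         | (refine ⟨?_, ?_, ?_, ?_⟩ <;> intros <;> simp_all; done)
     · rw [if_neg (fun h => hfix h.symm)] at hb
       first
         | (exfalso; norm_num at hb; done)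
         | (refine ⟨?_, ?_, ?_, ?_⟩ <;> intros <;> simp_all; done))
  · intro a b
    have hA : ∀ a b, ∑ π, w π * (if π a = b ∧ σ a ≠ 1 then (1 : ℝ) else 0) =
        if σ a ≠ 1 then bM Y σ p m a b else 0 := by
      intro a b
      by_cases h : σ a = 1
      · simp [h]
      · simp only [ne_eq, h, not_false_eq_true, and_true, if_true]
        exact hent a b
    have hpf : ∀ π, ((pf σ π a b : ℤ) : ℝ) = (if π a = b ∧ σ a ≠ 1 then (1 : ℝ) else 0) -
        (if π b = a ∧ σ b ≠ 1 then (1 : ℝ) else 0) := by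
      intro π
      unfold pf
      push_cast
      rfl
    simp only [hpf, mul_sub, Finset.sum_sub_distrib]
    rw [hA, hA]
    unfold bM lin
    rw [hY]
    by_cases hab : a = b
    · subst hab
      simp
    · have hba : ¬ b = a := fun h => hab h.symm
      simp only [hab, hba, if_false]
      rcases type_cases h1 h2 a with ⟨s1, y1, c1, c2, c3, c4⟩ | ⟨s1, y1, c1, c2, c3, c4⟩ |
        ⟨s1, y1, c1, c2, c3, c4⟩ | ⟨s1, y1, c1, c2, c3, c4⟩ <;>
      rcases type_cases h1 h2 b with ⟨t1, z1, d1, d2, d3, d4⟩ | ⟨t1, z1, d1, d2, d3, d4⟩ |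
        ⟨t1, z1, d1, d2, d3, d4⟩ | ⟨t1, z1, d1, d2, d3, d4⟩ <;>
      rw [c1, c2, c3, d1, d2, d3] <;>
      simp [s1, y1, t1, z1] <;> ring
  · have hA : ∀ a, ∑ π, w π * (if σ a ≠ 1 ∧ π a ≠ a then (1 : ℝ) else 0) =
        iQ σ a + iZ Y σ a * (p / m) := by
      intro a
      have e : ∀ π : Equiv.Perm V, (if σ a ≠ 1 ∧ π a ≠ a then (1 : ℝ) else 0) =
          (if σ a ≠ 1 then 1 else 0) * (1 - (if π a = a then (1 : ℝ) else 0)) := by
        intro π
        by_cases c1 : σ a = 1 <;> by_cases c2 : π a = a <;> simp [c1, c2]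
      simp only [e]
      have : ∑ π, w π * ((if σ a ≠ 1 then 1 else 0) * (1 - (if π a = a then (1 : ℝ) else 0))) =
          (if σ a ≠ 1 then 1 else 0) * (∑ π, w π - ∑ π, w π * (if π a = a then (1 : ℝ) else 0)) := by
        rw [← Finset.sum_sub_distrib, Finset.mul_sum]
        apply Finset.sum_congr rfl
        intro π _
        ring
      rw [this, hw1, hent]
      unfold bM
      rw [if_pos rfl]
      rcases type_cases h1 h2 a with ⟨s1, y1, c1, c2, c3, c4⟩ | ⟨s1, y1, c1, c2, c3, c4⟩ |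
        ⟨s1, y1, c1, c2, c3, c4⟩ | ⟨s1, y1, c1, c2, c3, c4⟩ <;>
      rw [c1, c2, c3, c4] <;> simp [s1]
    have hsum : ∑ π, w π * pc σ π = p + z * (p / m) := by
      unfold pc
      simp only [Finset.mul_sum]
      rw [Finset.sum_comm]
      simp only [hA, Finset.sum_add_distrib, ← Finset.sum_mul]
      rw [sQ, sZ]
    rw [hsum]
    have hz' : z = m - 2 * p := by linarith
    rw [hz']
    have : p + (m - 2 * p) * (p / m) = m / 2 - 2 * (p - m / 2) ^ 2 / m := by
      field_simp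
      ring
    rw [this]
    have : 0 ≤ 2 * (p - m / 2) ^ 2 / m := by positivity
    linarith

theorem local_flow (h1 : ∀ v, σ v = -1 ∨ σ v = 0 ∨ σ v = 1) (h2 : ∀ v, v ∉ Y → σ v = 0)
    (h0 : ∑ v, σ v = 0) :
    ∃ cb : ℝ, cb ≤ Y.card / 2 ∧ ∀ (e : V → V → ℝ) (e0 : ℝ), ∃ (φ : V → V → ℤ) (c : ℝ),
      (∀ a b, φ a b = - φ b a) ∧ (∀ a b, φ a b ≠ 0 → a ∈ Y ∧ b ∈ Y) ∧
      (∀ b, ∑ a, φ a b = σ b) ∧ (∑ a, ∑ b, ((max (φ a b) 0 : ℤ) : ℝ) ≤ c) ∧
      (∑ a, ∑ b, (e a b + φ a b - lin Y σ a b) ^ 2 + (e0 + c - cb) ^ 2 / Y.card ≤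
        ∑ a, ∑ b, (e a b) ^ 2 + e0 ^ 2 / Y.card + 3 * Y.card) := by
  have nP : ∀ v, 0 ≤ iP σ v := fun v => by unfold iP; split_ifs <;> norm_num
  have nQ : ∀ v, 0 ≤ iQ σ v := fun v => by unfold iQ; split_ifs <;> norm_num
  have nZ : ∀ v, 0 ≤ iZ Y σ v := fun v => by unfold iZ; split_ifs <;> norm_num
  have hPQ : ∑ v, iQ σ v = ∑ v, iP σ v := by
    have e1 : ∀ v, iP σ v - iQ σ v = (σ v : ℝ) := by
      intro v
      unfold iP iQ
      rcases h1 v with h | h | h <;> rw [h] <;> norm_num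
    have e2 : ∑ v, (iP σ v - iQ σ v) = 0 := by
      simp only [e1]
      exact_mod_cast h0
    rw [Finset.sum_sub_distrib] at e2
    linarith
  have hcard : (Y.card : ℝ) = 2 * ∑ v, iP σ v + ∑ v, iZ Y σ v := by
    have e1 : ∀ v, iP σ v + iQ σ v + iZ Y σ v = if v ∈ Y then 1 else 0 := by
      intro v
      rcases type_cases h1 h2 v with ⟨s1, y1, c1, c2, c3, c4⟩ | ⟨s1, y1, c1, c2, c3, c4⟩ |
        ⟨s1, y1, c1, c2, c3, c4⟩ | ⟨s1, y1, c1, c2, c3, c4⟩ <;> rw [c1, c2, c3] <;> simp [y1]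
    have e2 : ∑ v, (iP σ v + iQ σ v + iZ Y σ v) = (Y.card : ℝ) := by
      simp only [e1]
      simp
    rw [Finset.sum_add_distrib, Finset.sum_add_distrib, hPQ] at e2
    linarith
  rcases (Finset.sum_nonneg (fun v _ => nP v) : 0 ≤ ∑ v, iP σ v).eq_or_lt with hp | hp
  · -- σ = 0
    have hσ : ∀ v, σ v = 0 := by
      intro v
      have z1 := (Finset.sum_eq_zero_iff_of_nonneg (fun v _ => nP v)).1 hp.symm v
        (Finset.mem_univ v)
      have z2 := (Finset.sum_eq_zero_iff_of_nonneg (fun v _ => nQ v)).1 (hPQ.trans hp.symm) v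
        (Finset.mem_univ v)
      unfold iP at z1
      unfold iQ at z2
      rcases h1 v with h | h | h
      · rw [h] at z2; norm_num at z2
      · exact h
      · rw [h] at z1; norm_num at z1
    refine ⟨0, by positivity, fun e e0 => ⟨fun _ _ => 0, 0, by simp, by simp, ?_, by simp, ?_⟩⟩
    · intro b; rw [hσ b]; simp
    · have hl : ∀ a b, lin Y σ a b = 0 := by
        intro a b; unfold lin; rw [hσ a, hσ b]; simp
      simp only [hl]
      have : (0 : ℝ) ≤ 3 * Y.card := by positivity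
      simp
  · obtain ⟨w, hw0, hw1, hsup, hmean, hcb⟩ := exists_perm_avg (Y := Y) h1 h2 hp hcard
      (Finset.sum_nonneg (fun v _ => nZ v)) rfl hPQ rfl rfl
    set m : ℝ := (Y.card : ℝ) with hm
    have hm0 : 0 < m := by
      rw [hcard]
      have := Finset.sum_nonneg (fun v (_ : v ∈ Finset.univ) => nZ v)
      linarith
    set cb := ∑ π, w π * pc σ π with hcbdef
    refine ⟨cb, hcb, ?_⟩
    intro e e0
    have hpcn : ∀ π, 0 ≤ pc σ π := by
      intro π; unfold pc
      apply Finset.sum_nonneg; intro a _; split_ifs <;> norm_num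
    have hpc : ∀ π, 0 < w π → pc σ π ≤ m := by
      intro π hπ
      have : m = ∑ a : V, (if a ∈ Y then (1 : ℝ) else 0) := by
        rw [hm]; simp
      rw [this]
      unfold pc
      apply Finset.sum_le_sum
      intro a _
      by_cases ha : a ∈ Y
      · rw [if_pos ha]; split_ifs <;> norm_num
      · have := (hsup π hπ a).2.2.2 ha
        simp [this, ha]
    have hF : ∑ π, w π * (∑ a, ∑ b, (e a b + ((pf σ π a b : ℤ) : ℝ) - lin Y σ a b) ^ 2 +
        (e0 + pc σ π - cb) ^ 2 / m) ≤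
        ∑ a, ∑ b, (e a b) ^ 2 + e0 ^ 2 / m + 3 * m := by
      have e1 : ∑ π, w π * (∑ a, ∑ b, (e a b + ((pf σ π a b : ℤ) : ℝ) - lin Y σ a b) ^ 2 +
          (e0 + pc σ π - cb) ^ 2 / m) =
          ∑ a, ∑ b, ∑ π, w π * (e a b + ((pf σ π a b : ℤ) : ℝ) - lin Y σ a b) ^ 2 +
          (∑ π, w π * (e0 + pc σ π - cb) ^ 2) / m := by
        simp only [mul_add, Finset.sum_add_distrib]
        congr 1
        · simp only [Finset.mul_sum]
          rw [Finset.sum_comm]
          apply Finset.sum_congr rfl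
          intro a _
          rw [Finset.sum_comm]
        · rw [Finset.sum_div]
          apply Finset.sum_congr rfl
          intro π _
          ring
      rw [e1]
      have e2 : ∑ a, ∑ b, ∑ π, w π * (e a b + ((pf σ π a b : ℤ) : ℝ) - lin Y σ a b) ^ 2 ≤
          ∑ a, ∑ b, (e a b) ^ 2 + m := by
        calc ∑ a, ∑ b, ∑ π, w π * (e a b + ((pf σ π a b : ℤ) : ℝ) - lin Y σ a b) ^ 2
            ≤ ∑ a, ∑ b, ((e a b) ^ 2 + ∑ π, w π * ((pf σ π a b : ℤ) : ℝ) ^ 2) := by
              apply Finset.sum_le_sum; intro a _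
              apply Finset.sum_le_sum; intro b _
              exact variance_le w (fun π => ((pf σ π a b : ℤ) : ℝ)) hw1 (e a b) _ (hmean a b)
          _ = ∑ a, ∑ b, (e a b) ^ 2 + ∑ π, w π * ∑ a, ∑ b, ((pf σ π a b : ℤ) : ℝ) ^ 2 := by
              simp only [Finset.sum_add_distrib]
              congr 1
              simp only [Finset.mul_sum]
              symm
              rw [Finset.sum_comm]
              apply Finset.sum_congr rfl
              intro a _
              rw [Finset.sum_comm]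
          _ ≤ ∑ a, ∑ b, (e a b) ^ 2 + ∑ π, w π * (2 * pc σ π) := by
              gcongr with π _
              · exact hw0 π
              · exact pf_sq_sum σ π
          _ = ∑ a, ∑ b, (e a b) ^ 2 + 2 * cb := by
              rw [hcbdef, Finset.mul_sum]
              congr 1
              apply Finset.sum_congr rfl
              intro π _
              ring
          _ ≤ ∑ a, ∑ b, (e a b) ^ 2 + m := by linarith
      have e3 : ∑ π, w π * (e0 + pc σ π - cb) ^ 2 ≤ e0 ^ 2 + m ^ 2 := by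
        refine (variance_le w (fun π => pc σ π) hw1 e0 cb rfl).trans ?_
        have : ∑ π, w π * (pc σ π) ^ 2 ≤ ∑ π, w π * m ^ 2 := by
          apply Finset.sum_le_sum
          intro π _
          rcases (hw0 π).eq_or_lt with h | h
          · rw [← h]; simp
          · exact mul_le_mul_of_nonneg_left
              (pow_le_pow_left₀ (hpcn π) (hpc π h) 2) (hw0 π)
        rw [← Finset.sum_mul, hw1, one_mul] at this
        linarith
      have e4 : (∑ π, w π * (e0 + pc σ π - cb) ^ 2) / m ≤ e0 ^ 2 / m + m := by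
        rw [div_le_iff₀ hm0]
        have : (e0 ^ 2 / m + m) * m = e0 ^ 2 + m ^ 2 := by field_simp
        rw [this]
        exact e3
      linarith
    obtain ⟨π, hπ, hK⟩ := exists_le_of_avg w _ hw0 hw1 _ hF
    have hs := hsup π hπ
    refine ⟨pf σ π, pc σ π, pf_skew σ π, ?_, ?_, pf_pos_sum σ π, hK⟩
    · intro a b hab
      have key : ∀ a b, π a = b ∧ σ a ≠ 1 → a ≠ b → a ∈ Y ∧ b ∈ Y := by
        rintro a b ⟨hπa, hσa⟩ hne
        have ha : a ∈ Y := by
          by_contra h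
          exact hne (((hs a).2.2.2 h).symm.trans hπa)
        refine ⟨ha, ?_⟩
        rcases h1 a with h | h | h
        · exact hπa ▸ ((hs a).2.1 h).1
        · rcases (hs a).2.2.1 ha h with h' | h'
          · by_contra hb
            have := h2 b hb
            rw [hπa] at h'
            omega
          · exact absurd (h'.symm.trans hπa) hne
        · exact absurd h hσa
      have hne : a ≠ b := by
        rintro rfl
        exact hab (pf_diag σ π a)
      unfold pf at hab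
      by_cases c1 : π a = b ∧ σ a ≠ 1
      · exact key a b c1 hne
      · by_cases c2 : π b = a ∧ σ b ≠ 1
        · exact (key b a c2 (Ne.symm hne)).symm
        · rw [if_neg c1, if_neg c2] at hab
          exact absurd rfl hab
    · intro b
      unfold pf
      rw [Finset.sum_sub_distrib]
      have f1 : ∑ a, (if π a = b ∧ σ a ≠ 1 then (1 : ℤ) else 0) =
          if σ (π.symm b) ≠ 1 then 1 else 0 := by
        rw [Finset.sum_eq_single (π.symm b)]
        · simp
        · intro a _ ha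
          rw [if_neg]
          rintro ⟨h, -⟩
          exact ha (by rw [← h]; simp)
        · simp
      have f2 : ∑ a, (if π b = a ∧ σ b ≠ 1 then (1 : ℤ) else 0) = if σ b ≠ 1 then 1 else 0 := by
        rw [Finset.sum_eq_single (π b)]
        · simp
        · intro a _ ha
          rw [if_neg]
          rintro ⟨h, -⟩
          exact ha h.symm
        · simp
      rw [f1, f2]
      have hb := hs (π.symm b)
      rw [Equiv.apply_symm_apply] at hb
      rcases h1 b with h | h | h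
      · -- σ b = -1
        have : σ (π.symm b) = 1 := by
          rcases h1 (π.symm b) with g | g | g
          · exact absurd h (hb.2.1 g).2
          · by_cases hy : π.symm b ∈ Y
            · rcases hb.2.2.1 hy g with g' | g'
              · omega
              · rw [← g'] at g; omega
            · have g' := hb.2.2.2 hy
              rw [← g'] at g; omega
          · exact g
        rw [this, h]; norm_num
      · have : σ (π.symm b) ≠ 1 := by
          intro g
          have := hb.1 g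
          omega
        rw [if_pos this, h]; norm_num
      · have : σ (π.symm b) ≠ 1 := by
          intro g
          have := hb.1 g
          omega
        rw [if_pos this, h]; norm_num

end local_lemma

end Pool.Agent.Helper40.TI
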